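import Mathlib
import Pool.Agent.Rog.Defs

/-!
# Hadwiger's covering problem for general convex bodies and random signed sums (MP_eba1ef_gt)

Targets (jobs HRL-*).  `n` (or `d`) is the dimension, `M = q K`, `v : ι → E n` a finite family of
points of `K`, `a = q / (1 + q)`, so that `a (v i + M) ⊆ M`.
-/

set_option autoImplicit false

open MeasureTheory Set
open scoped Pointwise

namespace Pool.Agent.HRL

open Pool.Agent.Rog (E SymBody)

/-- The homothet `a (v + M)`. -/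
def H {n : ℕ} (M : Set (E n)) (a : ℝ) (v : E n) : Set (E n) := {u | ∃ w ∈ M, u = a • (v + w)}

/-- The average over all signs of the norm (unit ball `L`) of the signed sum. -/
noncomputable def avg {n N : ℕ} (L : Set (E n)) (w : Fin N → E n) : ℝ :=
  (∑ s : Fin N → Bool, gauge L (∑ j, (if s j then (1 : ℝ) else -1) • w j)) / 2 ^ N

/-- The tuples of points of `M` with large average. -/
def J {n : ℕ} (N : ℕ) (L M : Set (E n)) (ρ : ℝ) : Set (Fin N → E n) :=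
  {w | (∀ i, w i ∈ M) ∧ ρ * N < avg L w}

/-- The energy bound (second moment trick). -/
def T_EN : Prop := ∀ (n : ℕ) (M : Set (E n)) (ι : Type) [Fintype ι] (v : ι → E n) (a κ : ℝ),
  IsCompact M → 0 < a → 0 ≤ κ →
  (∀ z : E n, (({i | v i - z ∈ M} : Set ι).ncard : ℝ) ≤ κ * Fintype.card ι) →
  ∑ i, ∑ j, volume.real (H M a (v i) ∩ H M a (v j)) ≤
    κ * a ^ n * (Fintype.card ι : ℝ) ^ 2 * volume.real M

/-- The chain: a set of small volume is rarely hit. -/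
def T_TR : Prop := ∀ (n N : ℕ) (M S : Set (E n)) (ι : Type) [Fintype ι] [Nonempty ι] (v : ι → E n)
  (a ϑ R : ℝ), IsCompact M → 0 < volume.real M → 0 < a → 0 < ϑ → 0 < R →
  (∀ i, H M a (v i) ⊆ M) →
  ∑ i, ∑ j, volume.real (H M a (v i) ∩ H M a (v j)) ≤
    ϑ * (a ^ n) ^ 2 * (Fintype.card ι : ℝ) ^ 2 * volume.real M →
  MeasurableSet S → S ⊆ M →
  ∑ p : Fin N → ι, volume.real
      {w | w ∈ M ∧ (∑ j : Fin N, a ^ ((j : ℕ) + 1) • v (p j)) + a ^ N • w ∈ S} ≤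
    (Fintype.card ι : ℝ) ^ N *
      ((ϑ * R) ^ (2 ^ N - 1) * volume.real S + N / R * volume.real M)

/-- Independent single steps: a set of small volume of tuples is rarely hit. -/
def T_PR : Prop := ∀ (n N : ℕ) (M : Set (E n)) (A : Set (Fin N → E n)) (ι : Type) [Fintype ι]
  [Nonempty ι] (v : ι → E n) (a ϑ l : ℝ), IsCompact M → 0 < volume.real M → 0 < a → 0 < ϑ →
  0 < l → (∀ i, H M a (v i) ⊆ M) →
  ∑ i, ∑ j, volume.real (H M a (v i) ∩ H M a (v j)) ≤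
    ϑ * (a ^ n) ^ 2 * (Fintype.card ι : ℝ) ^ 2 * volume.real M →
  MeasurableSet A → (∀ u ∈ A, ∀ j, u j ∈ M) →
  ∑ p : Fin N → ι, volume.real
      {w : Fin N → E n | (∀ j, w j ∈ M) ∧ (fun j => a • (v (p j) + w j)) ∈ A} ≤
    (Fintype.card ι : ℝ) ^ N *
      (l ^ N * volume.real A + N * ϑ / l * volume.real M ^ N)

/-- The points of `q K` whose projection along `e` lies in the projection of `t q K`. -/
def T_SE : Prop := ∀ (n : ℕ) (K L : Set (E n)) (D q t g : ℝ) (e : E n), SymBody L →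
  Convex ℝ K → IsCompact K → L ⊆ K → K ⊆ D • L → 1 ≤ D → 0 < q → q ≤ 1 → 0 ≤ t → t ≤ 1 →
  0 < g →
  MeasurableSet {u | u ∈ q • K ∧ ∃ s : ℝ, u + s • e ∈ t • (q • K)} ∧
  volume.real {u | u ∈ q • K ∧ ∃ s : ℝ, u + s • e ∈ t • (q • K)} ≤
    (4 * D / g + 2) * (t * q + g) ^ n * volume.real K

/-- The functional: if no point `W + s e` of a line lies in `t q K`, then the sum of the `v j` is
far from the line spanned by `e`. -/
def T_FL : Prop := ∀ (n N : ℕ) (K L : Set (E n)) (a q t r : ℝ) (e w : E n) (v : Fin N → E n),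
  SymBody L → Convex ℝ K → IsCompact K → L ⊆ K → 0 < q → a = q / (1 + q) → 0 ≤ t →
  (∀ j, v j ∈ K) → w ∈ q • K →
  (∀ s : ℝ, (∑ j : Fin N, a ^ ((j : ℕ) + 1) • v j) + a ^ N • w + s • e ∉ t • (q • K)) →
  N - q * (1 - t) / a ^ N ≤ gauge L (∑ j, v j - r • e)

/-- Symmetrisation. -/
def T_LN : Prop := ∀ (n N : ℕ) (L : Set (E n)) (ι : Type) [Fintype ι] [Nonempty ι] (v : ι → E n),
  SymBody L →
  ∑ p : Fin N → ι, gauge L (∑ j, v (p j) - (N : ℝ) • ((1 / (Fintype.card ι : ℝ)) • ∑ i, v i)) ≤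
    2 * ∑ p : Fin N → ι, avg L (fun j => v (p j))

/-- The averages of the family are controlled by those of random points. -/
def T_AV : Prop := ∀ (n N : ℕ) (K L : Set (E n)) (ι : Type) [Fintype ι] (v : ι → E n)
  (a q D ρ σ τ : ℝ), SymBody L → Convex ℝ K → IsCompact K → L ⊆ K → K ⊆ D • L → 1 ≤ D →
  0 < q → q ≤ 1 → a = q / (1 + q) → 0 ≤ ρ → (∀ i, v i ∈ K) →
  volume.real (J N L (q • K) ρ) ≤ σ * volume.real (q • K) ^ N →
  ∑ p : Fin N → ι, volume.real {w : Fin N → E n | (∀ j, w j ∈ q • K) ∧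
    (fun j => a • (v (p j) + w j)) ∈ J N L (q • K) ρ} ≤
      (Fintype.card ι : ℝ) ^ N * (τ * volume.real (q • K) ^ N) →
  ∑ p : Fin N → ι, avg L (fun j => v (p j)) ≤
    (Fintype.card ι : ℝ) ^ N * (N * ((ρ + D * τ) / a + (ρ + D * σ)))

/-- The numerical part. -/
def T_NU : Prop := ∀ (d N : ℕ) (Θ D q a t g : ℝ), 2 ≤ d → 1 ≤ N → 1 ≤ Θ → 1 ≤ D →
  34 * 4 ^ N * Real.log (500 * N * Θ * D) ≤ N * d → q = 1 - 1 / d → a = q / (1 + q) →
  t = 1 - N / (17 * 2 ^ N) → g = N / (17 * 2 ^ N) * q / 2 →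
  1 / 2 ≤ q ∧ q < 1 ∧ 0 < a ∧ a < 1 / 2 ∧ 1 ≤ a ^ d * (Real.exp 1 * 2 ^ d) ∧ 1 ≤ 4 * q ^ d ∧
  0 ≤ t ∧ t ≤ 1 ∧ 0 < g ∧ 1 / a ≤ 21 / 10 ∧ q * (1 - t) / a ^ N ≤ N / 10 ∧
  (Θ * (20 * N)) ^ (2 ^ N - 1) * ((4 * D / g + 2) * (t * q + g) ^ d) ≤ q ^ d / 20

/-- The theorem for general convex bodies. -/
def T_TOPL : Prop := ∀ (d N : ℕ) (Θ D : ℝ) (K L : Set (E d)), 2 ≤ d → 1 ≤ N → 1 ≤ Θ → 1 ≤ D →
  34 * 4 ^ N * Real.log (500 * N * Θ * D) ≤ N * d → SymBody L → Convex ℝ K → IsCompact K →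
  L ⊆ K → K ⊆ D • L →
  volume.real (J N L K (1 / 10)) ≤
    1 / (80 * D * (320 * N * D * Θ) ^ N) * volume.real K ^ N →
  ∃ T : Finset (E d), (T.card : ℝ) ≤
      1 + Real.exp 1 * 2 ^ d / Θ * (d * Real.log (4 * d * D + 1)) ∧
    K ⊆ ⋃ t ∈ T, (fun x => t + x) '' interior K

end Pool.Agent.HRL
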