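import Mathlib
import Pool.Agent.HRL.Targets

/-!
# Measurability of `J`, elementary facts on the gauge
-/

set_option autoImplicit false

open MeasureTheory Set
open scoped Pointwise

namespace Pool.Agent.HRL

open Pool.Agent.Rog (E SymBody)

theorem zero_int {n : ℕ} {L : Set (E n)} (hL : SymBody L) : (0 : E n) ∈ interior L := by
  obtain ⟨o, ho⟩ := hL.int
  have h1 : -o ∈ L := hL.symm o (interior_subset ho)
  have := hL.cvx.combo_interior_self_mem_interior ho h1 (by norm_num : (0 : ℝ) < 1 / 2)
    (by norm_num : (0 : ℝ) ≤ 1 / 2) (by norm_num)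
  simpa using this

theorem nhds_zero {n : ℕ} {L : Set (E n)} (hL : SymBody L) : L ∈ nhds (0 : E n) :=
  mem_interior_iff_mem_nhds.mp (zero_int hL)

theorem absorb {n : ℕ} {L : Set (E n)} (hL : SymBody L) : Absorbent ℝ L :=
  absorbent_nhds_zero (nhds_zero hL)

theorem gauge_cont {n : ℕ} {L : Set (E n)} (hL : SymBody L) : Continuous (gauge L) :=
  continuous_gauge hL.cvx (nhds_zero hL)

/-- triangle inequality -/
theorem gauge_add {n : ℕ} {L : Set (E n)} (hL : SymBody L) (x y : E n) :
    gauge L (x + y) ≤ gauge L x + gauge L y :=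
  gauge_add_le hL.cvx (absorb hL) x y

/-- homogeneity -/
theorem gauge_mul {n : ℕ} {L : Set (E n)} (hL : SymBody L) (c : ℝ) (x : E n) :
    gauge L (c • x) = |c| * gauge L x := by
  have h := gauge_smul (s := L) (𝕜 := ℝ) (balanced_iff_smul_mem.mpr (by
    intro r hr y hy
    rw [Real.norm_eq_abs] at hr
    rcases le_total 0 r with h | h
    · rw [abs_of_nonneg h] at hr
      have := hL.cvx hy (interior_subset (zero_int hL)) h (sub_nonneg.mpr hr) (by ring)
      simpa using this
    · rw [abs_of_nonpos h] at hr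
      have := hL.cvx (hL.symm y hy) (interior_subset (zero_int hL)) (neg_nonneg.mpr h)
        (sub_nonneg.mpr hr) (by ring)
      simpa using this)) c x
  simpa [Real.norm_eq_abs] using h

theorem gauge_le_mem {n : ℕ} {L : Set (E n)} {D : ℝ} (hD : 0 ≤ D) {x : E n}
    (hx : x ∈ D • L) : gauge L x ≤ D := gauge_le_of_mem hD hx

theorem avg_cont {n N : ℕ} {L : Set (E n)} (hL : SymBody L) :
    Continuous (avg (N := N) L) := by
  unfold avg
  refine Continuous.div_const (continuous_finsetSum _ fun s _ => ?_) _
  refine (gauge_cont hL).comp ?_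
  fun_prop

theorem avg_nonneg {n N : ℕ} (L : Set (E n)) (w : Fin N → E n) : 0 ≤ avg L w := by
  unfold avg
  exact div_nonneg (Finset.sum_nonneg fun s _ => gauge_nonneg _) (by positivity)

/-- `J` is measurable. -/
theorem meas_J {n N : ℕ} {L M : Set (E n)} {ρ : ℝ} (hL : SymBody L) (hM : IsCompact M) :
    MeasurableSet (J N L M ρ) := by
  have h1 : MeasurableSet {w : Fin N → E n | ∀ i, w i ∈ M} := by
    have : {w : Fin N → E n | ∀ i, w i ∈ M} = Set.univ.pi fun _ => M := by
      ext w; simp
    rw [this]
    exact (isCompact_univ_pi fun _ => hM).measurableSet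
  have h2 : MeasurableSet {w : Fin N → E n | ρ * N < avg L w} :=
    (isOpen_lt continuous_const (avg_cont hL)).measurableSet
  exact h1.inter h2

end Pool.Agent.HRL
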