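import Mathlib
import Pool.Agent.HRL.ME

/-!
# HRL-AV: averages of the family from averages of random points
-/

set_option autoImplicit false

open MeasureTheory Set
open scoped Pointwise

namespace Pool.Agent.HRL

open Pool.Agent.Rog (E SymBody)

namespace AV_

theorem avg_add {n N : ℕ} {L : Set (E n)} (hL : SymBody L) (x y : Fin N → E n) :
    avg L (fun j => x j + y j) ≤ avg L x + avg L y := by
  unfold avg
  rw [← add_div, ← Finset.sum_add_distrib]
  refine div_le_div_of_nonneg_right (Finset.sum_le_sum fun s _ => ?_) (by positivity)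
  simp only [smul_add, Finset.sum_add_distrib]
  exact gauge_add hL _ _

theorem avg_smul {n N : ℕ} {L : Set (E n)} (hL : SymBody L) (c : ℝ) (x : Fin N → E n) :
    avg L (fun j => c • x j) = |c| * avg L x := by
  unfold avg
  rw [← mul_div_assoc, Finset.mul_sum]
  congr 1
  refine Finset.sum_congr rfl fun s _ => ?_
  rw [← gauge_mul hL, Finset.smul_sum]
  congr 1
  exact Finset.sum_congr rfl fun j _ => smul_comm _ _ _

theorem gauge_sum {n : ℕ} {L : Set (E n)} (hL : SymBody L) {κ : Type} (T : Finset κ)
    (x : κ → E n) : gauge L (∑ j ∈ T, x j) ≤ ∑ j ∈ T, gauge L (x j) := by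
  classical
  induction T using Finset.induction_on with
  | empty => simp
  | insert j T hj ih =>
    rw [Finset.sum_insert hj, Finset.sum_insert hj]
    exact (gauge_add hL _ _).trans (add_le_add le_rfl ih)

theorem avg_le {n N : ℕ} {L : Set (E n)} (hL : SymBody L) {D : ℝ} (x : Fin N → E n)
    (hx : ∀ j, gauge L (x j) ≤ D) : avg L x ≤ N * D := by
  unfold avg
  rw [div_le_iff₀ (by positivity)]
  have h1 : ∀ s : Fin N → Bool,
      gauge L (∑ j, (if s j then (1 : ℝ) else -1) • x j) ≤ N * D := by
    intro s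
    refine (gauge_sum hL _ _).trans ?_
    calc ∑ j, gauge L ((if s j then (1 : ℝ) else -1) • x j) ≤ ∑ _j : Fin N, D := by
          refine Finset.sum_le_sum fun j _ => ?_
          rw [gauge_mul hL]
          have : |(if s j then (1 : ℝ) else -1)| = 1 := by split_ifs <;> simp
          rw [this, one_mul]
          exact hx j
      _ = N * D := by simp
  calc ∑ s : Fin N → Bool, gauge L (∑ j, (if s j then (1 : ℝ) else -1) • x j)
      ≤ ∑ _s : Fin N → Bool, (N * D : ℝ) := Finset.sum_le_sum fun s _ => h1 s
    _ = N * D * 2 ^ N := by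
        rw [Finset.sum_const, Finset.card_univ, nsmul_eq_mul]
        simp only [Fintype.card_pi, Fintype.card_bool, Finset.prod_const, Finset.card_univ,
          Fintype.card_fin]
        push_cast
        ring

theorem int_bound {X : Type} [MeasurableSpace X] (μ : Measure X) {B A J : Set X}
    (hB : MeasurableSet B) (hBf : μ B ≠ ⊤) (hA : MeasurableSet A) (hAB : A ⊆ B)
    (hJ : MeasurableSet J) (hJB : J ⊆ B) (c c1 c2 c3 : ℝ)
    (h : ∀ w ∈ B, c ≤ c1 + c2 * A.indicator 1 w + c3 * J.indicator 1 w) :
    c * μ.real B ≤ c1 * μ.real B + c2 * μ.real A + c3 * μ.real J := by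
  have hfin : IsFiniteMeasure (μ.restrict B) :=
    ⟨by rw [Measure.restrict_apply_univ]; exact hBf.lt_top⟩
  have i1 : Integrable (fun w => A.indicator (1 : X → ℝ) w) (μ.restrict B) :=
    (integrable_const (1 : ℝ)).indicator hA
  have i2 : Integrable (fun w => J.indicator (1 : X → ℝ) w) (μ.restrict B) :=
    (integrable_const (1 : ℝ)).indicator hJ
  have i4 : Integrable (fun w => c1 + c2 * A.indicator (1 : X → ℝ) w) (μ.restrict B) :=
    (integrable_const c1).add (i1.const_mul c2)
  have i3 : Integrable (fun w => c1 + c2 * A.indicator (1 : X → ℝ) w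
      + c3 * J.indicator (1 : X → ℝ) w) (μ.restrict B) :=
    i4.add (i2.const_mul c3)
  have h1 : ∫ _w in B, c ∂μ ≤ ∫ w in B, (c1 + c2 * A.indicator (1 : X → ℝ) w
      + c3 * J.indicator (1 : X → ℝ) w) ∂μ :=
    setIntegral_mono_on (integrable_const c) i3 hB h
  have e1 : ∫ w in B, A.indicator (1 : X → ℝ) w ∂μ = μ.real A := by
    rw [integral_indicator_one hA, measureReal_restrict_apply hA, inter_eq_left.2 hAB]
  have e2 : ∫ w in B, J.indicator (1 : X → ℝ) w ∂μ = μ.real J := by
    rw [integral_indicator_one hJ, measureReal_restrict_apply hJ, inter_eq_left.2 hJB]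
  rw [integral_add i4 (i2.const_mul c3),
    integral_add (integrable_const c1) (i1.const_mul c2), integral_const_mul,
    integral_const_mul, e1, e2, setIntegral_const, setIntegral_const, smul_eq_mul,
    smul_eq_mul] at h1
  linarith

end AV_

open AV_

theorem p_AV : T_AV := by
  intro n N K L ι _ v a q D ρ σ τ hL hKc hKk hLK hKD hD hq hq1 ha hρ hv hσ hτ
  classical
  set M : Set (E n) := q • K with hM
  have h1q : 0 < 1 + q := by linarith
  have ha0 : 0 < a := by rw [ha]; positivity
  have hMk : IsCompact M := hKk.smul q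
  have h0K : (0 : E n) ∈ K := hLK (interior_subset (zero_int hL))
  -- `M ⊆ K`
  have hMK : M ⊆ K := by
    rintro _ ⟨x, hx, rfl⟩
    have := hKc hx h0K hq.le (by linarith : (0 : ℝ) ≤ 1 - q) (by ring)
    simpa using this
  have hgM : ∀ x ∈ M, gauge L x ≤ D := fun x hx =>
    gauge_le_mem (by linarith) (hKD (hMK hx))
  set B : Set (Fin N → E n) := Set.univ.pi fun _ => M with hB
  have hBm : MeasurableSet B := (isCompact_univ_pi fun _ => hMk).measurableSet
  have hBf : volume B ≠ ⊤ := (isCompact_univ_pi fun _ => hMk).measure_lt_top.ne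
  have hBv : volume.real B = volume.real M ^ N := by
    rw [measureReal_def, hB, volume_pi_pi, ENNReal.toReal_prod]
    simp [measureReal_def]
  have hMpos : 0 < volume.real M := by
    have h1 : (interior M).Nonempty := by
      obtain ⟨o, ho⟩ := hL.int
      have h2 : o ∈ interior K := interior_mono hLK ho
      rw [hM, interior_smul₀ hq.ne']
      exact ⟨q • o, smul_mem_smul_set h2⟩
    rw [measureReal_def]
    refine ENNReal.toReal_pos ?_ hMk.measure_lt_top.ne
    exact ((isOpen_interior.measure_pos volume h1).trans_le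
      (measure_mono interior_subset)).ne'
  have hBpos : 0 < volume.real B := by rw [hBv]; positivity
  set Jv : Set (Fin N → E n) := J N L M ρ with hJv
  have hJm : MeasurableSet Jv := meas_J hL hMk
  have hmemB : ∀ w : Fin N → E n, w ∈ B ↔ ∀ j, w j ∈ M := by
    intro w; simp [hB]
  have hJB : Jv ⊆ B := fun w hw => (hmemB w).2 hw.1
  -- bound of `avg` on `M ^ N`
  have havg : ∀ w ∈ B, avg L w ≤ ρ * N + D * N * Jv.indicator (1 : (Fin N → E n) → ℝ) w := by
    intro w hw
    have hw' := (hmemB w).1 hw
    by_cases hj : w ∈ Jv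
    · rw [indicator_of_mem hj, Pi.one_apply, mul_one]
      have h1 := avg_le hL w (fun j => hgM _ (hw' j))
      have h2 : 0 ≤ ρ * (N : ℝ) := by positivity
      linarith
    · rw [indicator_of_notMem hj, mul_zero, add_zero]
      by_contra hc
      push Not at hc
      exact hj ⟨hw', hc⟩
  -- the shifted points
  set Wp : (Fin N → ι) → (Fin N → E n) → (Fin N → E n) :=
    fun p w j => a • (v (p j) + w j) with hWp
  have hWc : ∀ p, Continuous (Wp p) := by
    intro p
    simp only [hWp]
    fun_prop
  have hWB : ∀ p, ∀ w ∈ B, Wp p w ∈ B := by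
    intro p w hw
    rw [hmemB] at hw ⊢
    intro j
    obtain ⟨y, hy, hyw⟩ := hw j
    refine ⟨(1 / (1 + q)) • (v (p j) + q • y), ?_, ?_⟩
    · have := hKc (hv (p j)) hy (by positivity : 0 ≤ 1 / (1 + q)) (by positivity : 0 ≤ q / (1 + q))
        (by field_simp)
      have e : (1 / (1 + q)) • (v (p j) + q • y) = (1 / (1 + q)) • v (p j) + (q / (1 + q)) • y := by
        rw [smul_add, smul_smul]
        congr 2
        ring
      rw [e]
      exact this
    · simp only [hWp]
      rw [← hyw, smul_smul, ha]
      congr 1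
      ring
  set Ap : (Fin N → ι) → Set (Fin N → E n) := fun p => {w | (∀ j, w j ∈ M) ∧ Wp p w ∈ Jv} with hAp
  have hAm : ∀ p, MeasurableSet (Ap p) := by
    intro p
    have : Ap p = B ∩ (Wp p) ⁻¹' Jv := by
      ext w
      simp only [hAp, Set.mem_ofPred_eq, mem_inter_iff, mem_preimage, hmemB]
    rw [this]
    exact hBm.inter ((hWc p).measurable hJm)
  have hAB : ∀ p, Ap p ⊆ B := fun p w hw => (hmemB w).2 hw.1
  -- pointwise bound
  have hpt : ∀ p : Fin N → ι, ∀ w ∈ B, avg L (fun j => v (p j)) ≤
      ((1 / a) * (ρ * N) + ρ * N) + (1 / a) * (D * N) * (Ap p).indicator 1 w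
        + D * N * Jv.indicator 1 w := by
    intro p w hw
    have e1 : (fun j => v (p j)) = fun j => (1 / a) • Wp p w j + (-1 : ℝ) • w j := by
      funext j
      simp only [hWp]
      rw [smul_smul, one_div, inv_mul_cancel₀ ha0.ne', one_smul, neg_smul, one_smul]
      abel
    have h1 := avg_add hL (fun j => (1 / a) • Wp p w j) (fun j => (-1 : ℝ) • w j)
    rw [← e1, avg_smul hL (1 / a) (Wp p w), avg_smul hL (-1) w, abs_of_pos (by positivity : 0 < 1 / a), abs_neg, abs_one,
      one_mul] at h1
    have h2 := havg _ (hWB p w hw)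
    have h3 := havg _ hw
    have h4 : Jv.indicator (1 : (Fin N → E n) → ℝ) (Wp p w)
        = (Ap p).indicator (1 : (Fin N → E n) → ℝ) w := by
      by_cases hj : Wp p w ∈ Jv
      · rw [indicator_of_mem hj, indicator_of_mem (show w ∈ Ap p from ⟨(hmemB w).1 hw, hj⟩)]
        rfl
      · rw [indicator_of_notMem hj, indicator_of_notMem (fun h => hj h.2)]
    rw [h4] at h2
    have h5 : (1 / a) * avg L (Wp p w) ≤
        (1 / a) * (ρ * N + D * N * (Ap p).indicator (1 : (Fin N → E n) → ℝ) w) :=
      mul_le_mul_of_nonneg_left h2 (by positivity)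
    linarith
  have hint : ∀ p : Fin N → ι, avg L (fun j => v (p j)) * volume.real B ≤
      ((1 / a) * (ρ * N) + ρ * N) * volume.real B + (1 / a) * (D * N) * volume.real (Ap p)
        + D * N * volume.real Jv := fun p =>
    int_bound volume hBm hBf (hAm p) (hAB p) hJm hJB _ _ _ _ (hpt p)
  have hsum := Finset.sum_le_sum fun p (_ : p ∈ (Finset.univ : Finset (Fin N → ι))) => hint p
  rw [← Finset.sum_mul, Finset.sum_add_distrib, Finset.sum_add_distrib, Finset.sum_const,
    Finset.sum_const, ← Finset.mul_sum, Finset.card_univ, nsmul_eq_mul, nsmul_eq_mul] at hsum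
  have hcard : (Fintype.card (Fin N → ι) : ℝ) = (Fintype.card ι : ℝ) ^ N := by
    rw [Fintype.card_pi]
    simp
  rw [hcard] at hsum
  rw [← hBv] at hσ hτ
  have hC : 0 ≤ (Fintype.card ι : ℝ) ^ N := by positivity
  have hDN : 0 ≤ D * (N : ℝ) := by positivity
  have k1 : (1 / a) * (D * N) * ∑ p, volume.real (Ap p) ≤
      (1 / a) * (D * N) * ((Fintype.card ι : ℝ) ^ N * (τ * volume.real B)) :=
    mul_le_mul_of_nonneg_left hτ (by positivity)
  have k2 : (Fintype.card ι : ℝ) ^ N * (D * N * volume.real Jv) ≤
      (Fintype.card ι : ℝ) ^ N * (D * N * (σ * volume.real B)) :=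
    mul_le_mul_of_nonneg_left (mul_le_mul_of_nonneg_left hσ hDN) hC
  have hfin : (∑ p : Fin N → ι, avg L (fun j => v (p j))) * volume.real B ≤
      ((Fintype.card ι : ℝ) ^ N * (N * ((ρ + D * τ) / a + (ρ + D * σ)))) * volume.real B := by
    refine (hsum.trans (add_le_add (add_le_add le_rfl k1) k2)).trans (le_of_eq ?_)
    field_simp
    ring
  exact le_of_mul_le_mul_right hfin hBpos

end Pool.Agent.HRL
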