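import Pool.Agent.HRL.Targets
import Pool.Agent.HRP.BAD

/-!
# The energy bound: reflection and double counting
-/

set_option autoImplicit false

open MeasureTheory Set
open scoped Pointwise

namespace Pool.Agent.HRL

open Pool.Agent.Rog (E SymBody)

namespace EN_

/-- volume of the image under `w ↦ c - a w` -/
theorem vol_img {n : ℕ} (G : Set (E n)) (c : E n) (a : ℝ) (ha : 0 ≤ a) :
    volume.real ((fun w => c + (-a) • w) '' G) = a ^ n * volume.real G := by
  rw [Pool.Agent.HRP.BAD_.image_eq]
  unfold Measure.real
  have h1 : volume ((fun v => c + v) '' ((-a) • G)) = volume ((-a) • G) := by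
    rw [Set.image_add_left, measure_preimage_add]
  rw [h1, Measure.addHaar_smul, ENNReal.toReal_mul, ENNReal.toReal_ofReal (abs_nonneg _)]
  simp [abs_of_nonneg ha]

/-- the intersection of two homothets is a reflected homothet -/
theorem inter_eq {n : ℕ} (M : Set (E n)) (a : ℝ) (ha : 0 < a) (x y : E n) :
    H M a x ∩ H M a y =
      (fun w => a • (x + y) + (-a) • w) '' ({u | x - u ∈ M} ∩ {u | y - u ∈ M}) := by
  ext u
  simp only [H, mem_inter_iff, mem_ofPred_eq, mem_image]
  constructor
  · rintro ⟨⟨w, hw, h1⟩, w', hw', h2⟩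
    have h3 : x + w = y + w' := by
      have h4 : a • (x + w) = a • (y + w') := by rw [← h1, ← h2]
      exact smul_right_injective _ ha.ne' h4
    refine ⟨y - w, ⟨?_, ?_⟩, ?_⟩
    · have h5 : x - (y - w) = w' := by
        rw [sub_sub_eq_add_sub, h3]
        abel
      rw [h5]
      exact hw'
    · have h5 : y - (y - w) = w := by abel
      rw [h5]
      exact hw
    · rw [h1, neg_smul, ← sub_eq_add_neg, ← smul_sub]
      congr 1
      abel
  · rintro ⟨w, ⟨h1, h2⟩, rfl⟩
    refine ⟨⟨y - w, h2, ?_⟩, x - w, h1, ?_⟩
    · rw [neg_smul, ← sub_eq_add_neg, ← smul_sub]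
      congr 1
      abel
    · rw [neg_smul, ← sub_eq_add_neg, ← smul_sub]
      congr 1
      abel

/-- the reflected translates are compact -/
theorem cpt {n : ℕ} {M : Set (E n)} (hM : IsCompact M) (x : E n) :
    IsCompact {u : E n | x - u ∈ M} := by
  have h1 : {u : E n | x - u ∈ M} = (fun w => x - w) '' M := by
    ext u
    simp only [mem_ofPred_eq, mem_image]
    constructor
    · intro h
      exact ⟨x - u, h, by abel⟩
    · rintro ⟨w, hw, rfl⟩
      have h2 : x - (x - w) = w := by abel
      rw [h2]
      exact hw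
  rw [h1]
  exact hM.image (by fun_prop)

/-- the volume of a reflected translate -/
theorem vol_refl {n : ℕ} (M : Set (E n)) (x : E n) :
    volume.real {u : E n | x - u ∈ M} = volume.real M := by
  have h1 : {u : E n | x - u ∈ M} = (fun w => x + (-(1 : ℝ)) • w) '' M := by
    ext u
    simp only [mem_ofPred_eq, mem_image]
    constructor
    · intro h
      exact ⟨x - u, h, by simp⟩
    · rintro ⟨w, hw, rfl⟩
      have h2 : x - (x + (-(1 : ℝ)) • w) = w := by simp
      rw [h2]
      exact hw
  rw [h1, vol_img M x 1 zero_le_one]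
  simp

end EN_

open Classical in
/-- the energy bound -/
theorem p_EN : T_EN := by
  intro n M ι _ v a κ hM ha _hκ hmult
  have hpair : ∀ i j, volume.real (H M a (v i) ∩ H M a (v j)) =
      a ^ n * volume.real ({u : E n | v j - u ∈ M} ∩ {u : E n | v i - u ∈ M}) := by
    intro i j
    rw [EN_.inter_eq M a ha, EN_.vol_img _ _ a ha.le, inter_comm]
  have hrow : ∀ i, ∑ j, volume.real ({u : E n | v j - u ∈ M} ∩ {u : E n | v i - u ∈ M}) ≤
      κ * Fintype.card ι * volume.real M := by
    intro i
    have h := Pool.Agent.HRP.BAD_.mult (volume : Measure (E n)) (Finset.univ : Finset ι)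
      {u : E n | v i - u ∈ M} (fun j => {u : E n | v j - u ∈ M}) (κ * Fintype.card ι)
      (EN_.cpt hM (v i)).measure_lt_top.ne (fun j _ => (EN_.cpt hM (v j)).measurableSet) ?_
    · rw [EN_.vol_refl] at h
      exact h
    · intro u
      refine le_trans (le_of_eq ?_) (hmult u)
      have h2 : ∀ p : ι, ({u : E n | v p - u ∈ M}).indicator (fun _ => (1 : ℝ)) u =
          if v p - u ∈ M then (1 : ℝ) else 0 := by
        intro p
        by_cases h : v p - u ∈ M
        · rw [if_pos h, indicator_of_mem]
          exact h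
        · rw [if_neg h, indicator_of_notMem]
          exact h
      rw [Finset.sum_congr rfl fun p _ => h2 p, Finset.sum_boole]
      have h3 : ({i | v i - u ∈ M} : Set ι) =
          ((Finset.univ.filter (fun p => v p - u ∈ M) : Finset ι) : Set ι) := by
        ext p; simp
      rw [h3, Set.ncard_coe_finset]
  calc ∑ i, ∑ j, volume.real (H M a (v i) ∩ H M a (v j))
      = ∑ i, a ^ n * ∑ j, volume.real ({u : E n | v j - u ∈ M} ∩ {u : E n | v i - u ∈ M}) := by
        refine Finset.sum_congr rfl fun i _ => ?_
        rw [Finset.mul_sum]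
        exact Finset.sum_congr rfl fun j _ => hpair i j
    _ ≤ ∑ _i : ι, a ^ n * (κ * Fintype.card ι * volume.real M) :=
        Finset.sum_le_sum fun i _ => mul_le_mul_of_nonneg_left (hrow i) (pow_nonneg ha.le n)
    _ = κ * a ^ n * (Fintype.card ι : ℝ) ^ 2 * volume.real M := by
        rw [Finset.sum_const, nsmul_eq_mul, Finset.card_univ]
        ring

end Pool.Agent.HRL
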