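import Mathlib
import Pool.Agent.HRL.ME

/-!
# FL: a functional orthogonal to `e`
-/

set_option autoImplicit false

open MeasureTheory Set
open scoped Pointwise

namespace Pool.Agent.HRL

open Pool.Agent.Rog (E SymBody)

namespace FL_

theorem le_gauge {n : ℕ} {L : Set (E n)} (hL : SymBody L) (f : E n →L[ℝ] ℝ) {h : ℝ} (hh : 0 < h)
    (hf : ∀ y ∈ L, f y ≤ h) (x : E n) : f x ≤ h * gauge L x := by
  by_contra hlt
  push Not at hlt
  have h1 : gauge L x < f x / h := by
    rw [lt_div_iff₀ hh, mul_comm]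
    exact hlt
  obtain ⟨b, hb0, hb1, y, hy, hxy⟩ := exists_lt_of_gauge_lt (absorb hL) h1
  have h2 : f x = b * f y := by
    rw [← hxy]
    change f (b • y) = b * f y
    rw [map_smul, smul_eq_mul]
  have h3 : b * f y ≤ b * h := mul_le_mul_of_nonneg_left (hf y hy) hb0.le
  have h4 : b * h < f x := by
    rwa [lt_div_iff₀ hh] at hb1
  linarith

theorem geom (N : ℕ) {a q : ℝ} (hq : 0 < q) (ha : a = q / (1 + q)) :
    ∑ j : Fin N, a ^ ((j : ℕ) + 1) = q * (1 - a ^ N) := by
  have h1 : (∑ j : Fin N, a ^ (j : ℕ)) * (1 - a) = 1 - a ^ N := by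
    rw [Fin.sum_univ_eq_sum_range (fun i => a ^ i) N, mul_comm]
    exact mul_neg_geom_sum a N
  have h2 : a = q * (1 - a) := by
    rw [ha]
    field_simp
    ring
  have h3 : ∑ j : Fin N, a ^ ((j : ℕ) + 1) = (∑ j : Fin N, a ^ (j : ℕ)) * a := by
    rw [Finset.sum_mul]
    exact Finset.sum_congr rfl fun j _ => pow_succ a j
  rw [h3, ← h1]
  calc (∑ j : Fin N, a ^ (j : ℕ)) * a = (∑ j : Fin N, a ^ (j : ℕ)) * (q * (1 - a)) := by
        rw [← h2]
    _ = _ := by ring

end FL_

open FL_

theorem p_FL : T_FL := by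
  intro n N K L a q t r e w v hL hKc hKk hLK hq ha ht hv hw hC
  set W : E n := (∑ j : Fin N, a ^ ((j : ℕ) + 1) • v j) + a ^ N • w with hWdef
  have ha0 : 0 < a := by rw [ha]; positivity
  have ha1 : a < 1 := by
    rw [ha, div_lt_one (by linarith)]
    linarith
  have h0K : (0 : E n) ∈ K := hLK (interior_subset (zero_int hL))
  -- separation
  have hcl : IsClosed (({W} : Set (E n)) + (Submodule.span ℝ {e} : Set (E n))) := by
    rw [Set.singleton_add]
    exact (Homeomorph.addLeft W).isClosedMap _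
      (Submodule.closed_of_finiteDimensional (Submodule.span ℝ {e}))
  have hcx : Convex ℝ (({W} : Set (E n)) + (Submodule.span ℝ {e} : Set (E n))) :=
    (convex_singleton W).add (Submodule.convex _)
  have hdis : Disjoint (t • (q • K)) (({W} : Set (E n)) + (Submodule.span ℝ {e} : Set (E n))) := by
    rw [Set.disjoint_left]
    intro y hy1 hy2
    rw [Set.singleton_add] at hy2
    obtain ⟨x, hx, rfl⟩ := hy2
    obtain ⟨s, rfl⟩ := Submodule.mem_span_singleton.1 hx
    exact hC s hy1
  obtain ⟨f, u, v', hf1, huv, hf2⟩ := geometric_hahn_banach_compact_closed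
    ((hKc.smul q).smul t) ((hKk.smul q).smul t) hcx hcl hdis
  have hline : ∀ s : ℝ, v' < f W + s * f e := by
    intro s
    have h1 := hf2 (W + s • e) (by
      rw [Set.singleton_add]
      exact ⟨s • e, Submodule.mem_span_singleton.2 ⟨s, rfl⟩, rfl⟩)
    rw [map_add, map_smul, smul_eq_mul] at h1
    exact h1
  have hfe : f e = 0 := by
    by_contra hne
    have h1 := hline ((v' - f W - 1) / f e)
    rw [div_mul_cancel₀ _ hne] at h1
    linarith
  have hfW : u < f W := by
    have h1 := hline 0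
    rw [zero_mul, add_zero] at h1
    linarith
  have h0 : 0 < u := by
    have h1 := hf1 0 ⟨0, ⟨0, h0K, by simp⟩, by simp⟩
    rwa [map_zero] at h1
  -- the maximum on `K`
  obtain ⟨x0, hx0, hmax⟩ := hKk.exists_isMaxOn ⟨0, h0K⟩ f.continuous.continuousOn
  have hle : ∀ y ∈ K, f y ≤ f x0 := fun y hy => hmax hy
  obtain ⟨w0, hw0, hw0w⟩ := hw
  have hfw : f w = q * f w0 := by
    rw [← hw0w]
    change f (q • w0) = q * f w0
    rw [map_smul, smul_eq_mul]
  have hfWs : f W = (∑ j : Fin N, a ^ ((j : ℕ) + 1) * f (v j)) + a ^ N * f w := by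
    rw [hWdef, map_add, map_sum, map_smul, smul_eq_mul]
    congr 1
    refine Finset.sum_congr rfl fun j _ => ?_
    rw [map_smul, smul_eq_mul]
  set h : ℝ := f x0 with hh
  have hwle : f w ≤ q * h := by
    rw [hfw]
    exact mul_le_mul_of_nonneg_left (hle w0 hw0) hq.le
  have hpos : 0 < h := by
    by_contra hneg
    push Not at hneg
    have h1 : f W ≤ 0 := by
      rw [hfWs]
      have h2 : ∑ j : Fin N, a ^ ((j : ℕ) + 1) * f (v j) ≤ 0 :=
        Finset.sum_nonpos fun j _ =>
          mul_nonpos_of_nonneg_of_nonpos (by positivity) ((hle _ (hv j)).trans hneg)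
      have h3 : a ^ N * f w ≤ 0 :=
        mul_nonpos_of_nonneg_of_nonpos (by positivity)
          (hwle.trans (mul_nonpos_of_nonneg_of_nonpos hq.le hneg))
      linarith
    linarith
  have htq : t * (q * h) < f W := by
    have h1 := hf1 (t • (q • x0)) ⟨q • x0, ⟨x0, hx0, rfl⟩, rfl⟩
    rw [map_smul, map_smul, smul_eq_mul, smul_eq_mul] at h1
    exact h1.trans hfW
  -- the defects
  have hsum : ∑ j : Fin N, a ^ ((j : ℕ) + 1) * (h - f (v j)) ≤ q * h * (1 - t) := by
    have h1 : ∑ j : Fin N, a ^ ((j : ℕ) + 1) * (h - f (v j)) =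
        q * (1 - a ^ N) * h - (f W - a ^ N * f w) := by
      rw [hfWs, add_sub_cancel_right, ← geom N hq ha, Finset.sum_mul, ← Finset.sum_sub_distrib]
      exact Finset.sum_congr rfl fun j _ => by ring
    rw [h1]
    have h2 : a ^ N * f w ≤ a ^ N * (q * h) := mul_le_mul_of_nonneg_left hwle (by positivity)
    nlinarith
  have hsum2 : a ^ N * ∑ j : Fin N, (h - f (v j)) ≤ q * h * (1 - t) := by
    refine le_trans ?_ hsum
    rw [Finset.mul_sum]
    refine Finset.sum_le_sum fun j _ =>
      mul_le_mul_of_nonneg_right ?_ (sub_nonneg.2 (hle _ (hv j)))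
    exact pow_le_pow_of_le_one ha0.le ha1.le (by have := j.2; omega)
  have haN : 0 < a ^ N := by positivity
  have hsum3 : ∑ j : Fin N, (h - f (v j)) ≤ h * (q * (1 - t) / a ^ N) := by
    rw [← mul_div_assoc, le_div_iff₀ haN, mul_comm]
    calc a ^ N * ∑ j : Fin N, (h - f (v j)) ≤ q * h * (1 - t) := hsum2
      _ = h * (q * (1 - t)) := by ring
  have hval : f (∑ j, v j - r • e) = N * h - ∑ j : Fin N, (h - f (v j)) := by
    rw [map_sub, map_sum, map_smul, hfe, smul_zero, sub_zero, Finset.sum_sub_distrib,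
      Finset.sum_const, Finset.card_univ, Fintype.card_fin, nsmul_eq_mul]
    ring
  have hg := le_gauge hL f hpos (fun y hy => hle y (hLK hy)) (∑ j, v j - r • e)
  rw [hval] at hg
  have hfin : h * (N - q * (1 - t) / a ^ N) ≤ h * gauge L (∑ j, v j - r • e) := by
    calc h * (N - q * (1 - t) / a ^ N) = N * h - h * (q * (1 - t) / a ^ N) := by ring
      _ ≤ N * h - ∑ j : Fin N, (h - f (v j)) := by linarith
      _ ≤ _ := hg
  exact le_of_mul_le_mul_left hfin hpos

end Pool.Agent.HRL
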