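import Mathlib
import Pool.Agent.HRL.Targets
import Pool.Agent.HRL.ME

/-!
# Symmetrisation of finite averages (`T_LN`)
-/

set_option autoImplicit false

open MeasureTheory Set
open scoped Pointwise

namespace Pool.Agent.HRL

open Pool.Agent.Rog (E SymBody)

namespace LN_

/-- the sign -/
noncomputable def sg {N : ℕ} (s : Fin N → Bool) (j : Fin N) : ℝ := if s j then (1 : ℝ) else -1

theorem gauge_neg' {n : ℕ} {L : Set (E n)} (hL : SymBody L) (x : E n) :
    gauge L (-x) = gauge L x := by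
  have := gauge_mul hL (-1) x
  simpa using this

theorem gauge_sum_le' {n : ℕ} {L : Set (E n)} (hL : SymBody L) {κ : Type} (S : Finset κ)
    (f : κ → E n) : gauge L (∑ i ∈ S, f i) ≤ ∑ i ∈ S, gauge L (f i) := by
  classical
  induction S using Finset.induction_on with
  | empty => simp
  | insert a S ha ih =>
    rw [Finset.sum_insert ha, Finset.sum_insert ha]
    exact (gauge_add hL _ _).trans (by linarith)

/-- the exchange of the coordinates where the sign is negative -/
def sw {N : ℕ} {ι : Type} (s : Fin N → Bool) (x : (Fin N → ι) × (Fin N → ι)) :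
    (Fin N → ι) × (Fin N → ι) :=
  (fun j => if s j then x.1 j else x.2 j, fun j => if s j then x.2 j else x.1 j)

theorem sw_inv {N : ℕ} {ι : Type} (s : Fin N → Bool) :
    Function.Involutive (sw (ι := ι) s) := by
  intro x
  unfold sw
  ext j
  · by_cases h : s j <;> simp [h]
  · by_cases h : s j <;> simp [h]

theorem sum_sw {n N : ℕ} {L : Set (E n)} {ι : Type} [Fintype ι] (v : ι → E n)
    (s : Fin N → Bool) :
    ∑ x : (Fin N → ι) × (Fin N → ι), gauge L (∑ j, (v (x.1 j) - v (x.2 j))) =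
      ∑ x : (Fin N → ι) × (Fin N → ι), gauge L (∑ j, sg s j • (v (x.1 j) - v (x.2 j))) := by
  rw [← Equiv.sum_comp ((sw_inv (ι := ι) s).toPerm)]
  refine Finset.sum_congr rfl fun x _ => ?_
  congr 1
  refine Finset.sum_congr rfl fun j _ => ?_
  simp only [Function.Involutive.coe_toPerm, sw, sg]
  by_cases h : s j <;> simp [h]

theorem one_sign {n N : ℕ} {L : Set (E n)} (hL : SymBody L) {ι : Type} [Fintype ι]
    (v : ι → E n) (s : Fin N → Bool) :
    ∑ x : (Fin N → ι) × (Fin N → ι), gauge L (∑ j, (v (x.1 j) - v (x.2 j))) ≤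
      2 * (Fintype.card ι : ℝ) ^ N * ∑ p : Fin N → ι, gauge L (∑ j, sg s j • v (p j)) := by
  rw [sum_sw v s]
  calc ∑ x : (Fin N → ι) × (Fin N → ι), gauge L (∑ j, sg s j • (v (x.1 j) - v (x.2 j)))
      ≤ ∑ x : (Fin N → ι) × (Fin N → ι), (gauge L (∑ j, sg s j • v (x.1 j)) +
          gauge L (∑ j, sg s j • v (x.2 j))) := by
        refine Finset.sum_le_sum fun x _ => ?_
        have h1 : ∑ j, sg s j • (v (x.1 j) - v (x.2 j)) =
            (∑ j, sg s j • v (x.1 j)) + -(∑ j, sg s j • v (x.2 j)) := by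
          rw [← sub_eq_add_neg, ← Finset.sum_sub_distrib]
          exact Finset.sum_congr rfl fun j _ => smul_sub _ _ _
        rw [h1]
        refine (gauge_add hL _ _).trans ?_
        rw [gauge_neg' hL]
    _ = 2 * (Fintype.card ι : ℝ) ^ N * ∑ p : Fin N → ι, gauge L (∑ j, sg s j • v (p j)) := by
        rw [Finset.sum_add_distrib, Fintype.sum_prod_type, Fintype.sum_prod_type]
        simp only [Finset.sum_const, Finset.card_univ, Fintype.card_fun, Fintype.card_fin,
          nsmul_eq_mul, Nat.cast_pow, ← Finset.mul_sum]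
        ring

theorem avg_eq {n N : ℕ} (L : Set (E n)) (w : Fin N → E n) :
    avg L w * 2 ^ N = ∑ s : Fin N → Bool, gauge L (∑ j, sg s j • w j) := by
  unfold avg sg
  field_simp

theorem main {n N : ℕ} {L : Set (E n)} (hL : SymBody L) {ι : Type} [Fintype ι]
    (v : ι → E n) :
    ∑ x : (Fin N → ι) × (Fin N → ι), gauge L (∑ j, (v (x.1 j) - v (x.2 j))) ≤
      2 * (Fintype.card ι : ℝ) ^ N * ∑ p : Fin N → ι, avg L (fun j => v (p j)) := by
  have h := Finset.sum_le_sum (s := (Finset.univ : Finset (Fin N → Bool)))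
    fun s _ => one_sign hL v s
  rw [Finset.sum_const, ← Finset.mul_sum, Finset.sum_comm] at h
  simp only [← avg_eq, ← Finset.sum_mul, Finset.card_univ, Fintype.card_fun, Fintype.card_fin,
    nsmul_eq_mul, Nat.cast_pow, Fintype.card_bool, Nat.cast_ofNat] at h
  have h2 : (0 : ℝ) < 2 ^ N := by positivity
  refine le_of_mul_le_mul_left ?_ h2
  linarith

theorem sum_zero {n N : ℕ} {ι : Type} [Fintype ι] (u : ι → E n) (hu : ∑ i, u i = 0) (j : Fin N) :
    ∑ p : Fin N → ι, u (p j) = 0 := by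
  have h := Fintype.sum_piFinset_apply (κ := ι) (ι := Fin N) u Finset.univ j
  rw [hu, smul_zero] at h
  rw [← h]
  refine Finset.sum_congr ?_ fun _ _ => rfl
  ext p
  simp

theorem point {n N : ℕ} {L : Set (E n)} (hL : SymBody L) {ι : Type} [Fintype ι] [Nonempty ι]
    (v : ι → E n) (p : Fin N → ι) :
    (Fintype.card ι : ℝ) ^ N *
      gauge L (∑ j, v (p j) - (N : ℝ) • ((1 / (Fintype.card ι : ℝ)) • ∑ i, v i)) ≤
      ∑ p' : Fin N → ι, gauge L (∑ j, (v (p j) - v (p' j))) := by
  have hc : (0 : ℝ) < Fintype.card ι := by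
    exact_mod_cast Fintype.card_pos
  set b : E n := (1 / (Fintype.card ι : ℝ)) • ∑ i, v i with hb
  have hu : ∑ i, (v i - b) = 0 := by
    rw [Finset.sum_sub_distrib, Finset.sum_const, Finset.card_univ, hb,
      ← Nat.cast_smul_eq_nsmul ℝ, smul_smul, mul_one_div_cancel hc.ne', one_smul, sub_self]
  have hz : ∑ p' : Fin N → ι, ∑ j, (v (p' j) - b) = 0 := by
    rw [Finset.sum_comm]
    exact Finset.sum_eq_zero fun j _ => sum_zero (fun i => v i - b) hu j
  have hx : ∀ q : Fin N → ι, ∑ j, (v (q j) - b) = ∑ j, v (q j) - (N : ℝ) • b := by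
    intro q
    rw [Finset.sum_sub_distrib, Finset.sum_const, Finset.card_univ, Fintype.card_fin,
      ← Nat.cast_smul_eq_nsmul ℝ]
  have hkey : ((Fintype.card ι : ℝ) ^ N) • (∑ j, v (p j) - (N : ℝ) • b) =
      ∑ p' : Fin N → ι, ∑ j, (v (p j) - v (p' j)) := by
    have h1 : ∀ p' : Fin N → ι, ∑ j, (v (p j) - v (p' j)) =
        (∑ j, v (p j) - (N : ℝ) • b) - ∑ j, (v (p' j) - b) := by
      intro p'
      rw [hx, Finset.sum_sub_distrib]
      abel
    simp only [h1, Finset.sum_sub_distrib (f := fun _ : Fin N → ι => ∑ j, v (p j) - (N : ℝ) • b)]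
    rw [hz, sub_zero, Finset.sum_const, Finset.card_univ, Fintype.card_fun, Fintype.card_fin,
      ← Nat.cast_smul_eq_nsmul ℝ, Nat.cast_pow]
  have h2 : (Fintype.card ι : ℝ) ^ N * gauge L (∑ j, v (p j) - (N : ℝ) • b) =
      gauge L (((Fintype.card ι : ℝ) ^ N) • (∑ j, v (p j) - (N : ℝ) • b)) := by
    rw [gauge_mul hL, abs_of_pos (by positivity)]
  rw [h2, hkey]
  exact gauge_sum_le' hL _ _

end LN_

theorem p_LN : T_LN := by
  intro n N L ι _ _ v hL
  have hc : (0 : ℝ) < (Fintype.card ι : ℝ) ^ N := by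
    have : (0 : ℝ) < Fintype.card ι := by exact_mod_cast Fintype.card_pos
    positivity
  refine le_of_mul_le_mul_left ?_ hc
  calc (Fintype.card ι : ℝ) ^ N * ∑ p : Fin N → ι,
        gauge L (∑ j, v (p j) - (N : ℝ) • ((1 / (Fintype.card ι : ℝ)) • ∑ i, v i))
      ≤ ∑ p : Fin N → ι, ∑ p' : Fin N → ι, gauge L (∑ j, (v (p j) - v (p' j))) := by
        rw [Finset.mul_sum]
        exact Finset.sum_le_sum fun p _ => LN_.point hL v p
    _ = ∑ x : (Fin N → ι) × (Fin N → ι), gauge L (∑ j, (v (x.1 j) - v (x.2 j))) := by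
        rw [Fintype.sum_prod_type]
    _ ≤ 2 * (Fintype.card ι : ℝ) ^ N * ∑ p : Fin N → ι, avg L (fun j => v (p j)) :=
        LN_.main hL v
    _ = (Fintype.card ι : ℝ) ^ N * (2 * ∑ p : Fin N → ι, avg L (fun j => v (p j))) := by ring

end Pool.Agent.HRL
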