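import Mathlib
import Pool.Agent.HRL.Targets

/-!
# Elementary inequalities (job HRL-NU)
-/

set_option autoImplicit false

namespace Pool.Agent.HRL

namespace NU_

/-- `1 / (2a)` -/
theorem two_a {D q a : ℝ} (hD : 2 ≤ D) (hq : q = 1 - 1 / D) (ha : a = q / (1 + q)) :
    2 * a * (1 + 1 / (2 * (D - 1))) = 1 := by
  have h1 : D - 1 ≠ 0 := by linarith
  have h2 : D ≠ 0 := by linarith
  have h3 : 1 + q ≠ 0 := by
    rw [hq]
    have : 1 / D ≤ 1 := by
      rw [div_le_one (by linarith)]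
      linarith
    linarith
  have h4 : q * D = D - 1 := by
    rw [hq]
    field_simp
  have h5 : 2 * a * (1 + 1 / (2 * (D - 1))) = 2 * q / (1 + q) * ((2 * D - 1) / (2 * (D - 1))) := by
    rw [ha]
    field_simp
    ring
  have h6 : (1 + q) * D = 2 * D - 1 := by linarith
  rw [h5, div_mul_div_comm, div_eq_one_iff_eq (mul_ne_zero h3 (mul_ne_zero two_ne_zero h1)),
    ← h6, ← h4]
  ring

/-- powers of `1 / (2a)` -/
theorem pow_le {D : ℝ} (hD : 2 ≤ D) (e : ℕ) :
    (1 + 1 / (2 * (D - 1))) ^ e ≤ Real.exp (e / (2 * (D - 1))) := by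
  have h1 : 1 + 1 / (2 * (D - 1)) ≤ Real.exp (1 / (2 * (D - 1))) := by
    have := Real.add_one_le_exp (1 / (2 * (D - 1)))
    linarith
  have h2 : 0 ≤ 1 + 1 / (2 * (D - 1)) := by
    have : 0 ≤ 1 / (2 * (D - 1)) := div_nonneg zero_le_one (by linarith)
    linarith
  calc (1 + 1 / (2 * (D - 1))) ^ e ≤ Real.exp (1 / (2 * (D - 1))) ^ e := pow_le_pow_left₀ h2 h1 e
    _ = Real.exp (e / (2 * (D - 1))) := by
        rw [← Real.exp_nat_mul]
        congr 1
        ring

theorem exp_quarter : Real.exp (1 / 4) ≤ 4 / 3 := by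
  have h1 := Real.add_one_le_exp (-(1 / 4) : ℝ)
  rw [Real.exp_neg] at h1
  have h2 := Real.exp_pos (1 / 4)
  have h3 : (3 / 4 : ℝ) ≤ (Real.exp (1 / 4))⁻¹ := by linarith
  have h4 := mul_le_mul_of_nonneg_right h3 h2.le
  rw [inv_mul_cancel₀ h2.ne'] at h4
  linarith

theorem log500 {x : ℝ} (hx : 500 ≤ x) : 6 ≤ Real.log x := by
  rw [Real.le_log_iff_exp_le (by linarith)]
  have h1 : Real.exp 6 = Real.exp 1 ^ 6 := by
    rw [← Real.exp_nat_mul]
    norm_num
  have h2 : Real.exp 1 < 2.72 := by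
    have := Real.exp_one_lt_d9
    linarith
  have h3 : Real.exp 1 ^ 6 ≤ 2.72 ^ 6 := pow_le_pow_left₀ (Real.exp_pos 1).le h2.le 6
  rw [h1]
  refine h3.trans (le_trans ?_ hx)
  norm_num

theorem pow25 (e : ℕ) (he : 2 ≤ e) : (274 : ℝ) * e ≤ 25 ^ e := by
  induction e, he using Nat.le_induction with
  | base => norm_num
  | succ n hn ih =>
    have h1 : (2 : ℝ) ≤ n := by exact_mod_cast hn
    rw [pow_succ]
    push_cast
    nlinarith

/-- the final comparison -/
theorem comp {e : ℕ} (he : 2 ≤ e) {Y D X : ℝ} (hY : 20 ≤ Y) (hD : 1 ≤ D) (hX : X = 25 * D * Y) :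
    Y ^ (e - 1) * (274 * e * D) * 20 ≤ X ^ e := by
  have h1 : X ^ e = (25 * D) ^ e * Y ^ e := by rw [hX, mul_pow]
  have h2 : Y ^ e = Y ^ (e - 1) * Y := by
    rw [← pow_succ]
    congr 1
    omega
  have h3 : 274 * (e : ℝ) * D ≤ (25 * D) ^ e := by
    rw [mul_pow]
    have h4 : D ≤ D ^ e := le_self_pow₀ hD (by omega)
    have h5 := pow25 e he
    have h6 : (0 : ℝ) ≤ 274 * e := by positivity
    calc 274 * (e : ℝ) * D ≤ 25 ^ e * D := mul_le_mul_of_nonneg_right h5 (by linarith)
      _ ≤ 25 ^ e * D ^ e := mul_le_mul_of_nonneg_left h4 (by positivity)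
  have h7 : 0 ≤ Y ^ (e - 1) := by
    have : 0 ≤ Y := by linarith
    positivity
  rw [h1, h2]
  have h8 : (0 : ℝ) ≤ 274 * e * D := by
    have : 0 ≤ D := by linarith
    positivity
  calc Y ^ (e - 1) * (274 * e * D) * 20 ≤ Y ^ (e - 1) * (274 * e * D) * Y :=
        mul_le_mul_of_nonneg_left hY (mul_nonneg h7 h8)
    _ ≤ Y ^ (e - 1) * (25 * D) ^ e * Y := by
        have : 0 ≤ Y := by linarith
        gcongr
    _ = (25 * D) ^ e * (Y ^ (e - 1) * Y) := by ring

end NU_

open NU_ in
theorem p_NU : T_NU := by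
  intro d N Θ D q a t g hd hN hΘ hDD hH hq ha ht hg
  have hD : (2 : ℝ) ≤ d := by exact_mod_cast hd
  have hD0 : (0 : ℝ) < d := by linarith
  have hN' : (1 : ℝ) ≤ N := by exact_mod_cast hN
  have hF2 : (2 : ℝ) ≤ 2 ^ N := by
    calc (2 : ℝ) = 2 ^ 1 := by norm_num
      _ ≤ 2 ^ N := pow_le_pow_right₀ (by norm_num) hN
  have hFN : (N : ℝ) + 1 ≤ 2 ^ N := by
    have h1 : N + 1 ≤ 2 ^ N := Nat.lt_two_pow_self
    exact_mod_cast h1
  have h4F : (4 : ℝ) ^ N = 2 ^ N * 2 ^ N := by
    rw [← mul_pow]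
    norm_num
  set F : ℝ := 2 ^ N with hF
  rw [h4F] at hH
  set X : ℝ := 500 * N * Θ * D with hXdef
  have hNΘ : 1 ≤ N * Θ := one_le_mul_of_one_le_of_one_le hN' hΘ
  have hNΘD : 1 ≤ N * Θ * D := one_le_mul_of_one_le_of_one_le hNΘ hDD
  have hX : 500 ≤ X := by
    have : X = 500 * (N * Θ * D) := by rw [hXdef]; ring
    rw [this]
    linarith
  have hX0 : 0 < X := by linarith
  have hlog := log500 hX
  set l := Real.log X with hl
  -- `d` is large
  have hNd : 204 * (F * F) ≤ N * d := by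
    have : 34 * (F * F) * 6 ≤ 34 * (F * F) * l := mul_le_mul_of_nonneg_left hlog (by positivity)
    linarith
  have hd204 : 204 * (N + 1 : ℝ) ≤ d := by
    have h1 : (N : ℝ) * (N + 1) ≤ F * F := by
      have : (N : ℝ) ≤ F := by linarith
      exact mul_le_mul this hFN (by linarith) (by linarith)
    have h2 : (N : ℝ) * (204 * (N + 1)) ≤ N * d := by linarith
    exact le_of_mul_le_mul_left h2 (by linarith)
  have hd400 : (408 : ℝ) ≤ d := by linarith
  have hinv : 1 / (d : ℝ) ≤ 1 / 408 := one_div_le_one_div_of_le (by norm_num) hd400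
  have hinv0 : 0 < 1 / (d : ℝ) := by positivity
  have hq0 : 10 / 11 ≤ q := by linarith
  have hq1 : 1 / 2 ≤ q := by linarith
  have hq2 : q < 1 := by linarith
  have hqp : 0 < q := by linarith
  have ha0 : 0 < a := by
    rw [ha]
    exact div_pos (by linarith) (by linarith)
  have ha2 : a < 1 / 2 := by
    rw [ha, div_lt_div_iff₀ (by linarith) (by norm_num)]
    linarith
  have h2a := two_a hD hq ha
  set u := 1 + 1 / (2 * ((d : ℝ) - 1)) with hu
  have hu0 : 0 < u := by
    have : 0 < 1 / (2 * ((d : ℝ) - 1)) := div_pos one_pos (by linarith)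
    linarith
  set η : ℝ := N / (17 * F) with hη
  have hη0 : 0 < η := by
    rw [hη]
    exact div_pos (by linarith) (by linarith)
  have hη1 : η ≤ 1 := by
    rw [hη, div_le_one (by linarith)]
    linarith
  have ht0 : 0 ≤ t := by linarith
  have ht1 : t ≤ 1 := by linarith
  have hg0 : 0 < g := by
    rw [hg]
    positivity
  refine ⟨hq1, hq2, ha0, ha2, ?_, ?_, ht0, ht1, hg0, ?_, ?_, ?_⟩
  · have h1 : u ^ d ≤ Real.exp 1 := by
      refine (pow_le hD d).trans (Real.exp_le_exp.2 ?_)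
      rw [div_le_one (by linarith)]
      linarith
    calc (1 : ℝ) = (2 * a * u) ^ d := by rw [h2a, one_pow]
      _ = a ^ d * (u ^ d * 2 ^ d) := by
          rw [mul_pow, mul_pow]
          ring
      _ ≤ a ^ d * (Real.exp 1 * 2 ^ d) := by gcongr
  · have h1 := one_add_mul_self_le_rpow_one_add (s := -(1 / (d : ℝ))) (by linarith)
      (p := (d : ℝ) / 2) (by linarith)
    have h2 : 1 + (d : ℝ) / 2 * -(1 / (d : ℝ)) = 1 / 2 := by
      field_simp
      norm_num
    have h3 : 1 + -(1 / (d : ℝ)) = q := by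
      rw [hq]
      ring
    rw [h2, h3] at h1
    have h4 : (q ^ ((d : ℝ) / 2)) ^ 2 = q ^ d := by
      rw [← Real.rpow_natCast (q ^ ((d : ℝ) / 2)) 2, ← Real.rpow_mul (by linarith),
        ← Real.rpow_natCast q d]
      congr 1
      push_cast
      ring
    have h5 : (1 / 2 : ℝ) ^ 2 ≤ (q ^ ((d : ℝ) / 2)) ^ 2 := pow_le_pow_left₀ (by norm_num) h1 2
    rw [h4] at h5
    norm_num at h5
    linarith
  · have h1 : 1 / a = (1 + q) / q := by
      rw [ha]
      field_simp
    rw [h1, div_le_div_iff₀ hqp (by norm_num)]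
    linarith
  · -- `q (1 - t) / a ^ N ≤ N / 10`
    have hu1 : u ^ N ≤ 4 / 3 := by
      refine (pow_le hD N).trans ((Real.exp_le_exp.2 ?_).trans exp_quarter)
      rw [div_le_div_iff₀ (by linarith) (by norm_num)]
      linarith
    have haN : 1 / a ^ N = F * u ^ N := by
      have h1 : a ^ N * (F * u ^ N) = 1 := by
        rw [hF, ← mul_pow, ← mul_pow, ← mul_assoc, mul_comm a 2, h2a, one_pow]
      rw [div_eq_iff (pow_pos ha0 N).ne']
      linarith
    have h1t : 1 - t = η := by linarith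
    have h2 : q * (1 - t) / a ^ N = N / 17 * (q * u ^ N) := by
      rw [div_eq_mul_one_div, haN, h1t, hη]
      have : F ≠ 0 := by positivity
      field_simp
    rw [h2]
    have h3 : q * u ^ N ≤ 4 / 3 := by
      have : q * u ^ N ≤ 1 * u ^ N := mul_le_mul_of_nonneg_right hq2.le (by positivity)
      linarith
    calc (N : ℝ) / 17 * (q * u ^ N) ≤ N / 17 * (4 / 3) :=
          mul_le_mul_of_nonneg_left h3 (by positivity)
      _ ≤ N / 10 := by linarith
  · -- the last inequality
    set Z : ℝ := (1 - η / 2) ^ d with hZ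
    have hZ0 : 0 ≤ Z := pow_nonneg (by linarith) d
    have htq : t * q + g = q * (1 - η / 2) := by
      rw [hg, ht]
      ring
    have hZX : Z * X ^ (2 ^ N) ≤ 1 := by
      have h1 : 1 - η / 2 ≤ Real.exp (-(η / 2)) := by
        have := Real.add_one_le_exp (-(η / 2))
        linarith
      have h2 : Z ≤ Real.exp (-(d * (η / 2))) := by
        refine (pow_le_pow_left₀ (by linarith) h1 d).trans (le_of_eq ?_)
        rw [← Real.exp_nat_mul]
        congr 1
        ring
      have h3 : X ^ (2 ^ N) = Real.exp (F * l) := by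
        rw [show F * l = ((2 ^ N : ℕ) : ℝ) * l by push_cast; rw [hF], Real.exp_nat_mul, hl,
          Real.exp_log hX0]
      have h4 : F * l ≤ d * (η / 2) := by
        rw [hη]
        have h5 : d * (N / (17 * F) / 2) = N * d / (34 * F) := by
          field_simp
          ring
        rw [h5, le_div_iff₀ (by linarith)]
        linarith
      calc Z * X ^ (2 ^ N) ≤ Real.exp (-(d * (η / 2))) * Real.exp (F * l) := by
            rw [h3]
            exact mul_le_mul_of_nonneg_right h2 (Real.exp_pos _).le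
        _ = Real.exp (-(d * (η / 2)) + F * l) := by rw [Real.exp_add]
        _ ≤ 1 := Real.exp_le_one_iff.2 (by linarith)
    have hgD : 4 * D / g + 2 ≤ 274 * F * D := by
      have h1 : 4 * D / g ≤ 272 * F * D := by
        rw [div_le_iff₀ hg0, hg, hη]
        have h2 : 272 * F * D * (N / (17 * F) * q / 2) = 8 * D * (N * q) := by
          field_simp
          ring
        rw [h2]
        have h3 : 1 / 2 ≤ N * q := by
          calc (1 : ℝ) / 2 ≤ 1 * q := by linarith
            _ ≤ N * q := mul_le_mul_of_nonneg_right hN' hqp.le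
        have h4 : 8 * D * (1 / 2) ≤ 8 * D * (N * q) :=
          mul_le_mul_of_nonneg_left h3 (by linarith)
        linarith
      have h5 : 2 * 1 ≤ F * D := mul_le_mul hF2 hDD (by norm_num) (by linarith)
      have h6 : 274 * F * D = 272 * F * D + 2 * (F * D) := by ring
      linarith
    have he : 2 ≤ 2 ^ N := by
      calc 2 = 2 ^ 1 := by norm_num
        _ ≤ 2 ^ N := Nat.pow_le_pow_right (by norm_num) hN
    have hY : 20 ≤ Θ * (20 * N) := by
      have : Θ * (20 * N) = 20 * (N * Θ) := by ring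
      linarith
    have hcomp := comp he hY hDD (X := X) (by rw [hXdef]; ring)
    have hcast : ((2 ^ N : ℕ) : ℝ) = F := by push_cast; rw [hF]
    rw [hcast] at hcomp
    set Y : ℝ := (Θ * (20 * N)) ^ (2 ^ N - 1) with hYdef
    have hY0 : 0 ≤ Y := by
      rw [hYdef]
      have : 0 ≤ Θ * (20 * N) := by linarith
      positivity
    rw [htq, mul_pow, ← hZ]
    have hqd : 0 < q ^ d := by positivity
    have h1 : Y * ((4 * D / g + 2) * (q ^ d * Z)) ≤ Y * (274 * F * D * (q ^ d * Z)) :=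
      mul_le_mul_of_nonneg_left (mul_le_mul_of_nonneg_right hgD (by positivity)) hY0
    have h2 : Y * (274 * F * D) * 20 * (q ^ d * Z) ≤ X ^ 2 ^ N * (q ^ d * Z) :=
      mul_le_mul_of_nonneg_right hcomp (by positivity)
    have h3 : X ^ 2 ^ N * (q ^ d * Z) = q ^ d * (Z * X ^ 2 ^ N) := by ring
    have h4 : q ^ d * (Z * X ^ 2 ^ N) ≤ q ^ d * 1 := mul_le_mul_of_nonneg_left hZX hqd.le
    have h5 : Y * (274 * F * D) * 20 * (q ^ d * Z) = 20 * (Y * (274 * F * D * (q ^ d * Z))) := by
      ring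
    linarith

end Pool.Agent.HRL
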