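import Mathlib
import Pool.Agent.HRL.Targets

/-!
# Independent steps: volumes of boxes, splitting at a level
-/

set_option autoImplicit false

open MeasureTheory Set
open scoped Pointwise

namespace Pool.Agent.HRL

open Pool.Agent.Rog (E SymBody)

namespace PR_

/-- the homothet as an image -/
lemma H_eq {n : ℕ} (M : Set (E n)) (a : ℝ) (x : E n) :
    H M a x = (fun w => a • (x + w)) '' M := by
  ext u
  constructor
  · rintro ⟨w, hw, rfl⟩
    exact ⟨w, hw, rfl⟩
  · rintro ⟨w, hw, rfl⟩
    exact ⟨w, hw, rfl⟩

lemma H_cpt {n : ℕ} {M : Set (E n)} (hM : IsCompact M) (a : ℝ) (x : E n) :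
    IsCompact (H M a x) := by
  rw [H_eq]
  exact hM.image (by fun_prop)

/-- volume of the homothet -/
lemma H_vol {n : ℕ} (M : Set (E n)) {a : ℝ} (ha : 0 < a) (x : E n) :
    volume.real (H M a x) = a ^ n * volume.real M := by
  have h1 : H M a x = a • ((fun w => x + w) '' M) := by
    rw [H_eq, ← image_smul, image_image]
  rw [h1, measureReal_def, Measure.addHaar_smul, ENNReal.toReal_mul,
    ENNReal.toReal_ofReal (abs_nonneg _), finrank_euclideanSpace_fin,
    abs_of_pos (pow_pos ha n), image_add_left, measure_preimage_add]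
  rfl

/-- volume of a homothet of tuples -/
lemma T_vol {n N : ℕ} (W : Set (Fin N → E n)) {a : ℝ} (ha : 0 < a) (x : Fin N → E n) :
    volume.real ((fun w : Fin N → E n => fun j => a • (x j + w j)) '' W) =
      (a ^ n) ^ N * volume.real W := by
  have h1 : (fun w : Fin N → E n => fun j => a • (x j + w j)) '' W =
      a • ((fun w => x + w) '' W) := by
    rw [← image_smul, image_image]
    rfl
  rw [h1, measureReal_def, Measure.addHaar_smul, ENNReal.toReal_mul,
    ENNReal.toReal_ofReal (abs_nonneg _), Module.finrank_pi_fintype, image_add_left,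
    measure_preimage_add]
  simp only [finrank_euclideanSpace_fin, Finset.sum_const, Finset.card_univ, Fintype.card_fin,
    smul_eq_mul]
  rw [abs_of_pos (pow_pos ha _), mul_comm N n, pow_mul]
  rfl

open Classical in
/-- a finite family of measurable subsets of `B` which covers every point at most `D` times -/
lemma mult {α : Type*} [MeasurableSpace α] (μ : Measure α) {κ : Type*} [Fintype κ]
    (B : Set α) (P : κ → Set α) (D : ℝ) (hD : 0 ≤ D) (hB : μ B ≠ ⊤) (hBm : MeasurableSet B)
    (hP : ∀ p, MeasurableSet (P p)) (hsub : ∀ p, P p ⊆ B)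
    (hcov : ∀ u ∈ B, ((Finset.univ.filter (fun p => u ∈ P p)).card : ℝ) ≤ D) :
    ∑ p, μ.real (P p) ≤ D * μ.real B := by
  have h1 : ∑ p, μ (P p) ≤ ENNReal.ofReal D * μ B := by
    have e1 : ∑ p, μ (P p) = ∫⁻ u, ∑ p, (P p).indicator (fun _ => (1 : ENNReal)) u ∂μ := by
      rw [lintegral_finsetSum _ fun p _ => measurable_const.indicator (hP p)]
      refine Finset.sum_congr rfl fun p _ => ?_
      rw [lintegral_indicator (hP p), setLIntegral_one]
    have e2 : ∀ u, ∑ p, (P p).indicator (fun _ => (1 : ENNReal)) u ≤
        B.indicator (fun _ => ENNReal.ofReal D) u := by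
      intro u
      by_cases hu : u ∈ B
      · rw [indicator_of_mem hu]
        have e3 : ∑ p, (P p).indicator (fun _ => (1 : ENNReal)) u =
            ((Finset.univ.filter (fun p => u ∈ P p)).card : ENNReal) := by
          rw [Finset.card_filter]
          push_cast
          refine Finset.sum_congr rfl fun p _ => ?_
          by_cases hp : u ∈ P p
          · simp [hp]
          · simp [hp]
        rw [e3, ← ENNReal.ofReal_natCast]
        exact ENNReal.ofReal_le_ofReal (hcov u hu)
      · rw [indicator_of_notMem hu]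
        refine le_of_eq (Finset.sum_eq_zero fun p _ => ?_)
        have hn : u ∉ P p := fun h => hu (hsub p h)
        simp [hn]
    calc ∑ p, μ (P p) = ∫⁻ u, ∑ p, (P p).indicator (fun _ => (1 : ENNReal)) u ∂μ := e1
      _ ≤ ∫⁻ u, B.indicator (fun _ => ENNReal.ofReal D) u ∂μ := lintegral_mono e2
      _ = ENNReal.ofReal D * μ B := by
          rw [lintegral_indicator hBm, setLIntegral_const]
  have hfin : ∀ p ∈ (Finset.univ : Finset κ), μ (P p) ≠ ⊤ := fun p _ =>
    ne_top_of_le_ne_top hB (measure_mono (hsub p))
  have h2 : (∑ p, μ (P p)).toReal ≤ (ENNReal.ofReal D * μ B).toReal :=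
    ENNReal.toReal_mono (ENNReal.mul_ne_top ENNReal.ofReal_ne_top hB) h1
  rw [ENNReal.toReal_sum hfin, ENNReal.toReal_mul, ENNReal.toReal_ofReal hD] at h2
  exact h2

/-- the multiplicity function -/
noncomputable def F {α ι : Type*} [Fintype ι] (h : ι → Set α) (x : α) : ℝ :=
  ∑ i, (h i).indicator (fun _ => (1 : ℝ)) x

lemma F_meas {α ι : Type*} [MeasurableSpace α] [Fintype ι] (h : ι → Set α)
    (hm : ∀ i, MeasurableSet (h i)) : Measurable (F h) := by
  unfold F
  exact Finset.measurable_sum _ fun i _ => measurable_const.indicator (hm i)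

open Classical in
lemma F_card {α ι : Type*} [Fintype ι] (h : ι → Set α) (x : α) :
    F h x = ((Finset.univ.filter (fun i => x ∈ h i)).card : ℝ) := by
  unfold F
  rw [Finset.card_filter]
  push_cast
  refine Finset.sum_congr rfl fun i _ => ?_
  by_cases hi : x ∈ h i
  · simp [hi]
  · simp [hi]

/-- Chebyshev on one set -/
lemma cheb {α ι : Type*} [MeasurableSpace α] (μ : Measure α) [Fintype ι] (h : ι → Set α)
    (hm : ∀ i, MeasurableSet (h i)) (hf : ∀ i, μ (h i) ≠ ⊤) (L : ℝ) (i : ι) :
    L * μ.real (h i ∩ {x | L < F h x}) ≤ ∑ j, μ.real (h i ∩ h j) := by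
  have hfin : IsFiniteMeasure (μ.restrict (h i)) :=
    ⟨by rw [Measure.restrict_apply_univ]; exact lt_top_iff_ne_top.mpr (hf i)⟩
  have hSm : MeasurableSet {x | L < F h x} := measurableSet_lt measurable_const (F_meas h hm)
  have hint : Integrable (F h) (μ.restrict (h i)) := by
    unfold F
    exact integrable_finsetSum _ fun j _ => (integrable_const (1 : ℝ)).indicator (hm j)
  have e1 : ∀ j, μ.real (h i ∩ h j) =
      ∫ u, (h j).indicator (fun _ => (1 : ℝ)) u ∂(μ.restrict (h i)) := by
    intro j
    rw [integral_indicator_const (1 : ℝ) (hm j), measureReal_restrict_apply (hm j), inter_comm]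
    simp
  have e2 : ∑ j, μ.real (h i ∩ h j) = ∫ u, F h u ∂(μ.restrict (h i)) := by
    unfold F
    rw [integral_finsetSum _ fun j _ => (integrable_const (1 : ℝ)).indicator (hm j)]
    exact Finset.sum_congr rfl fun j _ => e1 j
  have e3 : L * μ.real (h i ∩ {x | L < F h x}) =
      ∫ u, ({x | L < F h x}).indicator (fun _ => L) u ∂(μ.restrict (h i)) := by
    rw [integral_indicator_const L hSm, measureReal_restrict_apply hSm, inter_comm, smul_eq_mul,
      mul_comm]
  rw [e2, e3]
  refine integral_mono ((integrable_const L).indicator hSm) hint fun u => ?_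
  have hF0 : 0 ≤ F h u := by
    unfold F
    exact Finset.sum_nonneg fun j _ => indicator_nonneg (fun _ _ => zero_le_one) u
  by_cases hu : u ∈ {x | L < F h x}
  · rw [indicator_of_mem hu]
    exact le_of_lt hu
  · rw [indicator_of_notMem hu]
    exact hF0

/-- sums over tuples of products of volumes -/
lemma sum_box {n N : ℕ} {ι : Type} [Fintype ι] (f : Fin N → ι → Set (E n)) :
    ∑ p : Fin N → ι, volume.real (Set.pi univ fun j => f j (p j)) =
      ∏ j, ∑ i, volume.real (f j i) := by
  classical
  rw [Finset.prod_univ_sum, Fintype.piFinset_univ]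
  refine Finset.sum_congr rfl fun p _ => ?_
  rw [measureReal_def, volume_pi_pi, ENNReal.toReal_prod]
  rfl

end PR_

open PR_ in
theorem p_PR : T_PR := by
  classical
  intro n N M A ι _ _ v a ϑ l hM hV ha hϑ hl hsub hE hA hAM
  set V := volume.real M with hVdef
  set q : ℝ := (Fintype.card ι : ℝ) with hq
  have hq0 : 0 < q := by
    rw [hq]
    exact_mod_cast Fintype.card_pos
  set h : ι → Set (E n) := fun i => H M a (v i) with hh
  have hc : ∀ i, IsCompact (h i) := fun i => H_cpt hM a (v i)
  have hm : ∀ i, MeasurableSet (h i) := fun i => (hc i).measurableSet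
  have hvol : ∀ i, volume.real (h i) = a ^ n * V := fun i => H_vol M ha (v i)
  have han : 0 < a ^ n := pow_pos ha n
  set L : ℝ := l * q * a ^ n with hL
  have hL0 : 0 < L := by positivity
  -- the exceptional part
  set S : Set (E n) := {x | L < F h x} with hS
  have hSm : MeasurableSet S := measurableSet_lt measurable_const (F_meas h hm)
  have hcheb : ∑ i, volume.real (h i ∩ S) ≤ ϑ / l * (q * (a ^ n * V)) := by
    have h1 : L * ∑ i, volume.real (h i ∩ S) ≤ ϑ * (a ^ n) ^ 2 * q ^ 2 * V := by
      rw [Finset.mul_sum]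
      exact (Finset.sum_le_sum fun i _ =>
        cheb volume h hm (fun i => (hc i).measure_lt_top.ne) L i).trans hE
    have h2 : ϑ * (a ^ n) ^ 2 * q ^ 2 * V = L * (ϑ / l * (q * (a ^ n * V))) := by
      rw [hL]
      field_simp
    rw [h2] at h1
    exact le_of_mul_le_mul_left h1 hL0
  -- the pieces
  set Z : (Fin N → ι) → Set (Fin N → E n) := fun p => A ∩ Set.pi univ (fun j => h (p j)) with hZ
  have hZm : ∀ p, MeasurableSet (Z p) := fun p =>
    hA.inter (MeasurableSet.univ_pi fun j => hm _)
  have hAsub : A ⊆ Set.pi univ fun _ => M := fun u hu j _ => hAM u hu j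
  have hAfin : volume A ≠ ⊤ :=
    ne_top_of_le_ne_top (isCompact_univ_pi fun _ => hM).measure_lt_top.ne (measure_mono hAsub)
  set G : Set (Fin N → E n) := {u | ∀ j, u j ∉ S} with hG
  have hGm : MeasurableSet G := by
    have : G = Set.pi univ fun _ => Sᶜ := by
      ext u; simp [hG]
    rw [this]
    exact MeasurableSet.univ_pi fun _ => hSm.compl
  have himg : ∀ p : Fin N → ι, (a ^ n) ^ N * volume.real
      {w : Fin N → E n | (∀ j, w j ∈ M) ∧ (fun j => a • (v (p j) + w j)) ∈ A} =
      volume.real (Z p) := by
    intro p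
    rw [← T_vol _ ha fun j => v (p j)]
    congr 1
    ext u
    simp only [hZ, mem_image, mem_inter_iff, Set.mem_pi, mem_univ, forall_true_left, mem_ofPred_eq]
    constructor
    · rintro ⟨w, ⟨hw, hw'⟩, rfl⟩
      exact ⟨hw', fun j => ⟨w j, hw j, rfl⟩⟩
    · rintro ⟨huA, hu⟩
      choose w hw1 hw2 using hu
      refine ⟨w, ⟨hw1, ?_⟩, ?_⟩
      · have : (fun j => a • (v (p j) + w j)) = u := funext fun j => (hw2 j).symm
        rw [this]
        exact huA
      · exact funext fun j => (hw2 j).symm
  -- the good part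
  have hgood : ∑ p, volume.real (Z p ∩ G) ≤ L ^ N * volume.real A := by
    refine mult volume A (fun p => Z p ∩ G) (L ^ N) (by positivity) hAfin hA
      (fun p => (hZm p).inter hGm) (fun p u hu => hu.1.1) fun u _ => ?_
    suffices key : ((Finset.univ.filter (fun p : Fin N → ι => u ∈ Z p ∩ G)).card : ℝ) ≤
        L ^ N by
      convert key
    by_cases hu : u ∈ G
    · have h1 : (Finset.univ.filter (fun p : Fin N → ι => u ∈ Z p ∩ G)) ⊆
          Fintype.piFinset (fun j => Finset.univ.filter (fun i => u j ∈ h i)) := by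
        intro p hp
        rw [Finset.mem_filter] at hp
        rw [Fintype.mem_piFinset]
        intro j
        rw [Finset.mem_filter]
        exact ⟨Finset.mem_univ _, hp.2.1.2 j (mem_univ j)⟩
      calc ((Finset.univ.filter (fun p : Fin N → ι => u ∈ Z p ∩ G)).card : ℝ) ≤
          ((Fintype.piFinset (fun j => Finset.univ.filter (fun i => u j ∈ h i))).card : ℝ) := by
            exact_mod_cast Finset.card_le_card h1
        _ = ∏ j, F h (u j) := by
            rw [Fintype.card_piFinset]
            push_cast
            exact Finset.prod_congr rfl fun j _ => (F_card h (u j)).symm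
        _ ≤ ∏ _j : Fin N, L := by
            refine Finset.prod_le_prod (fun j _ => ?_) fun j _ => not_lt.mp (hu j)
            rw [F_card]
            positivity
        _ = L ^ N := by simp
    · have h1 : (Finset.univ.filter (fun p : Fin N → ι => u ∈ Z p ∩ G)) = ∅ := by
        refine Finset.filter_eq_empty_iff.mpr fun p _ hp => hu hp.2
      rw [h1]
      simp only [Finset.card_empty, Nat.cast_zero]
      positivity
  -- the boxes
  set f : Fin N → Fin N → ι → Set (E n) := fun k j i => if j = k then h i ∩ S else h i with hf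
  have hbox : ∀ k, ∑ p : Fin N → ι, volume.real (Set.pi univ fun j => f k j (p j)) ≤
      ϑ / l * (q * (a ^ n * V)) ^ N := by
    intro k
    rw [sum_box (f k)]
    have h1 : ∀ j, ∑ i, volume.real (f k j i) ≤
        (if j = k then ϑ / l else 1) * (q * (a ^ n * V)) := by
      intro j
      by_cases hj : j = k
      · simp only [hf, if_pos hj]
        exact hcheb
      · simp only [hf, if_neg hj, one_mul, hvol, Finset.sum_const, Finset.card_univ, nsmul_eq_mul]
        exact le_rfl
    calc ∏ j, ∑ i, volume.real (f k j i) ≤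
        ∏ j, ((if j = k then ϑ / l else 1) * (q * (a ^ n * V))) :=
          Finset.prod_le_prod (fun j _ => Finset.sum_nonneg fun i _ => measureReal_nonneg)
            fun j _ => h1 j
      _ = ϑ / l * (q * (a ^ n * V)) ^ N := by
          rw [Finset.prod_mul_distrib, Finset.prod_ite_eq' Finset.univ k]
          simp
  have hsplit : ∀ p : Fin N → ι, volume.real (Z p) ≤ volume.real (Z p ∩ G) +
      ∑ k, volume.real (Set.pi univ fun j => f k j (p j)) := by
    intro p
    have hboxfin : ∀ k, volume (Set.pi univ fun j => f k j (p j)) ≠ ⊤ := by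
      intro k
      refine ne_top_of_le_ne_top (isCompact_univ_pi fun j => hc (p j)).measure_lt_top.ne
        (measure_mono ?_)
      intro u hu j _
      have := hu j (mem_univ j)
      simp only [hf] at this
      split_ifs at this
      · exact this.1
      · exact this
    have h1 : Z p ⊆ (Z p ∩ G) ∪ ⋃ k ∈ (Finset.univ : Finset (Fin N)),
        Set.pi univ fun j => f k j (p j) := by
      intro u hu
      by_cases hg : u ∈ G
      · exact Or.inl ⟨hu, hg⟩
      · right
        simp only [hG, mem_ofPred_eq, not_forall, not_not] at hg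
        obtain ⟨k, hk⟩ := hg
        simp only [mem_iUnion, Finset.mem_univ, exists_true_left]
        refine ⟨k, fun j _ => ?_⟩
        simp only [hf]
        split_ifs with hj
        · subst hj
          exact ⟨hu.2 j (mem_univ j), hk⟩
        · exact hu.2 j (mem_univ j)
    have hZfin : volume (Z p ∩ G) ≠ ⊤ :=
      ne_top_of_le_ne_top hAfin (measure_mono fun u hu => hu.1.1)
    have hUfin : volume (⋃ k ∈ (Finset.univ : Finset (Fin N)),
        Set.pi univ fun j => f k j (p j)) ≠ ⊤ := by
      refine ne_top_of_le_ne_top ?_ (measure_biUnion_finset_le _ _)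
      exact (ENNReal.sum_lt_top.mpr fun k _ => lt_top_iff_ne_top.mpr (hboxfin k)).ne
    have h2 := measureReal_mono (μ := volume) h1 (by
      refine ne_top_of_le_ne_top ?_ (measure_union_le _ _)
      exact ENNReal.add_ne_top.mpr ⟨hZfin, hUfin⟩)
    refine h2.trans ((measureReal_union_le _ _).trans ?_)
    exact add_le_add le_rfl (measureReal_biUnion_finset_le _ _)
  have htot : ∑ p, volume.real (Z p) ≤
      L ^ N * volume.real A + N * (ϑ / l * (q * (a ^ n * V)) ^ N) := by
    calc ∑ p, volume.real (Z p) ≤ ∑ p, (volume.real (Z p ∩ G) +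
        ∑ k, volume.real (Set.pi univ fun j => f k j (p j))) :=
          Finset.sum_le_sum fun p _ => hsplit p
      _ = ∑ p, volume.real (Z p ∩ G) +
          ∑ k, ∑ p : Fin N → ι, volume.real (Set.pi univ fun j => f k j (p j)) := by
          rw [Finset.sum_add_distrib, Finset.sum_comm (s := Finset.univ (α := Fin N → ι))]
      _ ≤ L ^ N * volume.real A + ∑ _k : Fin N, ϑ / l * (q * (a ^ n * V)) ^ N :=
          add_le_add hgood (Finset.sum_le_sum fun k _ => hbox k)
      _ = L ^ N * volume.real A + N * (ϑ / l * (q * (a ^ n * V)) ^ N) := by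
          rw [Finset.sum_const, Finset.card_univ, Fintype.card_fin, nsmul_eq_mul]
  have hfinal : (a ^ n) ^ N * ∑ p : Fin N → ι, volume.real
      {w : Fin N → E n | (∀ j, w j ∈ M) ∧ (fun j => a • (v (p j) + w j)) ∈ A} ≤
      (a ^ n) ^ N * (q ^ N * (l ^ N * volume.real A + N * ϑ / l * V ^ N)) := by
    rw [Finset.mul_sum, Finset.sum_congr rfl fun p _ => himg p]
    refine htot.trans (le_of_eq ?_)
    rw [hL]
    ring
  exact le_of_mul_le_mul_left hfinal (pow_pos han N)

end Pool.Agent.HRL
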