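import Mathlib
import Pool.Agent.HRL.ME
import Pool.Agent.HRP.PRD

/-!
# SE: volume of a thin neighbourhood of a projection
-/

set_option autoImplicit false

open MeasureTheory Set
open scoped Pointwise

namespace Pool.Agent.HRL

open Pool.Agent.Rog (E SymBody)

namespace SE_

variable {n : ℕ}

/-- the projection set is closed -/
lemma closed_proj {T : Set (E n)} (hT : IsCompact T) (e : E n) :
    IsClosed {u : E n | ∃ s : ℝ, u + s • e ∈ T} := by
  have h1 : IsClosed ((Submodule.span ℝ {e} : Submodule ℝ (E n)) : Set (E n)) :=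
    Submodule.closed_of_finiteDimensional _
  have h2 : IsClosed (T + ((Submodule.span ℝ {e} : Submodule ℝ (E n)) : Set (E n))) :=
    IsClosed.add_left_of_isCompact h1 hT
  have h3 : {u : E n | ∃ s : ℝ, u + s • e ∈ T} =
      T + ((Submodule.span ℝ {e} : Submodule ℝ (E n)) : Set (E n)) := by
    ext u
    simp only [Set.mem_ofPred_eq, Set.mem_add, SetLike.mem_coe, Submodule.mem_span_singleton]
    constructor
    · rintro ⟨s, hs⟩
      exact ⟨u + s • e, hs, (-s) • e, ⟨-s, rfl⟩, by rw [neg_smul]; abel⟩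
    · rintro ⟨y, hy, z, ⟨s, rfl⟩, rfl⟩
      refine ⟨-s, ?_⟩
      have : y + s • e + (-s) • e = y := by rw [neg_smul]; abel
      rwa [this]
  rw [h3]
  exact h2

lemma meas_set {K : Set (E n)} (hK : IsCompact K) (q t : ℝ) (e : E n) :
    MeasurableSet {u : E n | u ∈ q • K ∧ ∃ s : ℝ, u + s • e ∈ t • (q • K)} := by
  have h1 : IsCompact (q • K) := hK.smul q
  have h2 : IsCompact (t • (q • K)) := h1.smul t
  exact h1.measurableSet.inter (closed_proj h2 e).measurableSet

lemma gauge_bd {K L : Set (E n)} {D q : ℝ} (hL : SymBody L) (hD : 1 ≤ D) (hKD : K ⊆ D • L)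
    (hq : 0 < q) (hq1 : q ≤ 1) {u : E n} (hu : u ∈ q • K) : gauge L u ≤ D := by
  obtain ⟨k, hk, rfl⟩ := hu
  have h1 : gauge L k ≤ D := gauge_le_mem (by linarith) (hKD hk)
  have h2 : gauge L (q • k) = |q| * gauge L k := gauge_mul hL q k
  have h3 : gauge L ((fun x => q • x) k) = gauge L (q • k) := rfl
  rw [h3, h2, abs_of_pos hq]
  have h4 : 0 ≤ gauge L k := gauge_nonneg _
  nlinarith

/-- a unit vector -/
lemma core {K L : Set (E n)} {D q t g : ℝ} {e : E n} (hL : SymBody L) (hK : Convex ℝ K)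
    (hKc : IsCompact K) (hLK : L ⊆ K) (hKD : K ⊆ D • L) (hD : 1 ≤ D) (hq : 0 < q) (hq1 : q ≤ 1)
    (ht : 0 ≤ t) (ht1 : t ≤ 1) (hg : 0 < g) (he : gauge L e = 1) :
    volume.real {u : E n | u ∈ q • K ∧ ∃ s : ℝ, u + s • e ∈ t • (q • K)} ≤
      (4 * D / g + 2) * (t * q + g) ^ n * volume.real K := by
  set S : Set (E n) := {u : E n | u ∈ q • K ∧ ∃ s : ℝ, u + s • e ∈ t • (q • K)} with hS
  set b : ℝ := t * q + g with hb
  have hb0 : 0 < b := by positivity
  set P : ℤ → Set (E n) := fun j => (fun w => (-((j : ℝ) * g)) • e + b • w) '' K with hP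
  set I : Finset ℤ := Finset.Icc ⌊-(2 * D) / g⌋ ⌊2 * D / g⌋ with hI
  have hcov : S ⊆ ⋃ j ∈ I, P j := by
    rintro u ⟨hu, s, y0, ⟨k, hk, hky⟩, hy⟩
    have hy' : u + s • e = t • y0 := hy.symm
    have hk' : y0 = q • k := hky.symm
    have h1 : gauge L u ≤ D := gauge_bd hL hD hKD hq hq1 hu
    have h2 : gauge L y0 ≤ D := gauge_bd hL hD hKD hq hq1 ⟨k, hk, hky⟩
    have h3 : gauge L (t • y0) ≤ D := by
      rw [gauge_mul hL, abs_of_nonneg ht]
      have h4 : 0 ≤ gauge L y0 := gauge_nonneg _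
      nlinarith
    have h5 : |s| ≤ 2 * D := by
      have h6 : s • e = t • y0 + (-1 : ℝ) • u := by
        rw [← hy', neg_one_smul]; abel
      have h7 : gauge L (s • e) = |s| := by rw [gauge_mul hL, he, mul_one]
      have h8 : gauge L ((-1 : ℝ) • u) = gauge L u := by
        rw [gauge_mul hL]; simp
      have h9 := gauge_add hL (t • y0) ((-1 : ℝ) • u)
      rw [← h6, h7, h8] at h9
      linarith
    obtain ⟨h5a, h5b⟩ := abs_le.1 h5
    set j : ℤ := ⌊s / g⌋ with hj
    have hjI : j ∈ I := by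
      rw [hI, Finset.mem_Icc]
      refine ⟨Int.floor_le_floor ?_, Int.floor_le_floor ?_⟩
      · exact div_le_div_of_nonneg_right h5a hg.le
      · exact div_le_div_of_nonneg_right h5b hg.le
    have hj1 : (j : ℝ) ≤ s / g := Int.floor_le _
    have hj2 : s / g < (j : ℝ) + 1 := Int.lt_floor_add_one _
    have hr1 : (j : ℝ) * g ≤ s := (le_div_iff₀ hg).1 hj1
    have hr2 : s < ((j : ℝ) + 1) * g := (div_lt_iff₀ hg).1 hj2
    set r : ℝ := s - (j : ℝ) * g with hr
    have hr0 : 0 ≤ r := by rw [hr]; linarith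
    have hrg : r ≤ g := by rw [hr]; nlinarith
    have hl : (-(r / g)) • e ∈ L := by
      have h10 : gauge L ((-(r / g)) • e) ≤ 1 := by
        rw [gauge_mul hL, he, mul_one, abs_neg, abs_of_nonneg (by positivity)]
        exact (div_le_one hg).2 hrg
      have h11 := (gauge_le_one_iff_mem_closure hL.cvx (nhds_zero hL)).1 h10
      rwa [hL.cpt.isClosed.closure_eq] at h11
    have h12 : (t * q) • k + g • ((-(r / g)) • e) ∈ b • K := by
      rw [hb, hK.add_smul (by positivity) hg.le]
      exact Set.add_mem_add (Set.smul_mem_smul_set hk) (Set.smul_mem_smul_set (hLK hl))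
    obtain ⟨w, hw, hw2⟩ := h12
    have hw3 : b • w = (t * q) • k + g • ((-(r / g)) • e) := hw2
    refine mem_iUnion₂.2 ⟨j, hjI, w, hw, ?_⟩
    have h13 : u = t • y0 - s • e := by rw [← hy']; abel
    have h14 : g • ((-(r / g)) • e) = (-r) • e := by
      rw [smul_smul]; congr 1; field_simp
    change (-((j : ℝ) * g)) • e + b • w = u
    rw [hw3, h14, h13, hk', smul_smul, hr]
    module
  have hvol : ∀ j, volume (P j) = ENNReal.ofReal (b ^ n) * volume K := fun j =>
    HRP.PRD_.vol_homothet K ((-((j : ℝ) * g)) • e) hb0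
  have hvolr : ∀ j, volume.real (P j) = b ^ n * volume.real K := by
    intro j
    rw [measureReal_def, hvol, ENNReal.toReal_mul, ENNReal.toReal_ofReal (by positivity)]
    rfl
  have hPc : ∀ j, IsCompact (P j) := fun j => hKc.image (by fun_prop)
  have hUc : IsCompact (⋃ j ∈ I, P j) := I.isCompact_biUnion fun j _ => hPc j
  have h20 : volume.real S ≤ volume.real (⋃ j ∈ I, P j) :=
    measureReal_mono hcov hUc.measure_lt_top.ne
  have h21 : volume.real (⋃ j ∈ I, P j) ≤ ∑ j ∈ I, volume.real (P j) :=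
    measureReal_biUnion_finset_le I P
  have h22 : ∑ j ∈ I, volume.real (P j) = (I.card : ℝ) * (b ^ n * volume.real K) := by
    rw [Finset.sum_congr rfl fun j _ => hvolr j, Finset.sum_const, nsmul_eq_mul]
  have hcard : (I.card : ℝ) ≤ 4 * D / g + 2 := by
    have h23 : I.card = (⌊2 * D / g⌋ + 1 - ⌊-(2 * D) / g⌋).toNat := by
      rw [hI, Int.card_Icc]
    have h24 : ⌊-(2 * D) / g⌋ ≤ ⌊2 * D / g⌋ := by
      apply Int.floor_le_floor
      apply div_le_div_of_nonneg_right _ hg.le
      linarith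
    have h25 : (I.card : ℤ) = ⌊2 * D / g⌋ + 1 - ⌊-(2 * D) / g⌋ := by
      rw [h23, Int.toNat_of_nonneg (by linarith)]
    have h26 : (I.card : ℝ) = (⌊2 * D / g⌋ : ℝ) + 1 - (⌊-(2 * D) / g⌋ : ℝ) := by
      exact_mod_cast h25
    have h27 : (⌊2 * D / g⌋ : ℝ) ≤ 2 * D / g := Int.floor_le _
    have h28 : -(2 * D) / g < (⌊-(2 * D) / g⌋ : ℝ) + 1 := Int.lt_floor_add_one _
    have h29 : 4 * D / g = 2 * D / g - -(2 * D) / g := by ring
    rw [h26, h29]
    linarith
  calc volume.real S ≤ (I.card : ℝ) * (b ^ n * volume.real K) := by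
        rw [← h22]; exact h20.trans h21
    _ ≤ (4 * D / g + 2) * (b ^ n * volume.real K) :=
        mul_le_mul_of_nonneg_right hcard (mul_nonneg (by positivity) measureReal_nonneg)
    _ = (4 * D / g + 2) * b ^ n * volume.real K := by ring

end SE_

open SE_

theorem p_SE : T_SE := by
  intro n K L D q t g e hL hK hKc hLK hKD hD hq hq1 ht ht1 hg
  refine ⟨meas_set hKc q t e, ?_⟩
  have h0 : (0 : E n) ∈ K := hLK (interior_subset (zero_int hL))
  by_cases he : e = 0
  · -- the set lies in `t q K`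
    have hsub : {u : E n | u ∈ q • K ∧ ∃ s : ℝ, u + s • e ∈ t • (q • K)} ⊆
        (fun w => (0 : E n) + (t * q + g) • w) '' K := by
      rintro u ⟨-, s, y0, ⟨k, hk, hky⟩, hy⟩
      have hy' : u + s • e = t • y0 := hy.symm
      have hk' : y0 = q • k := hky.symm
      have h1 : (t * q) • k + g • (0 : E n) ∈ (t * q + g) • K := by
        rw [hK.add_smul (by positivity) hg.le]
        exact Set.add_mem_add (Set.smul_mem_smul_set hk) (Set.smul_mem_smul_set h0)
      obtain ⟨w, hw, hw2⟩ := h1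
      have hw3 : (t * q + g) • w = (t * q) • k + g • (0 : E n) := hw2
      refine ⟨w, hw, ?_⟩
      change (0 : E n) + (t * q + g) • w = u
      rw [he, smul_zero, add_zero] at hy'
      rw [hw3, smul_zero, add_zero, zero_add, hy', hk', smul_smul]
    have hc : IsCompact ((fun w => (0 : E n) + (t * q + g) • w) '' K) :=
      hKc.image (by fun_prop)
    have h2 := measureReal_mono (μ := volume) hsub hc.measure_lt_top.ne
    have h3 : volume.real ((fun w => (0 : E n) + (t * q + g) • w) '' K) =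
        (t * q + g) ^ n * volume.real K := by
      rw [measureReal_def, HRP.PRD_.vol_homothet K 0 (by positivity), ENNReal.toReal_mul,
        ENNReal.toReal_ofReal (by positivity)]
      rfl
    rw [h3] at h2
    have h4 : 0 ≤ (t * q + g) ^ n * volume.real K :=
      mul_nonneg (by positivity) measureReal_nonneg
    have h5 : 0 < 4 * D / g := by positivity
    nlinarith
  · have hγ : 0 < gauge L e :=
      (gauge_pos (absorb hL) (NormedSpace.isVonNBounded_of_isBounded ℝ hL.cpt.isBounded)).2 he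
    have h1 : gauge L ((gauge L e)⁻¹ • e) = 1 := by
      rw [gauge_mul hL, abs_of_pos (inv_pos.2 hγ), inv_mul_cancel₀ hγ.ne']
    have h2 := core hL hK hKc hLK hKD hD hq hq1 ht ht1 hg h1
    have h3 : {u : E n | u ∈ q • K ∧ ∃ s : ℝ, u + s • ((gauge L e)⁻¹ • e) ∈ t • (q • K)} =
        {u : E n | u ∈ q • K ∧ ∃ s : ℝ, u + s • e ∈ t • (q • K)} := by
      ext u
      simp only [Set.mem_ofPred_eq]
      refine and_congr_right fun _ => ⟨?_, ?_⟩
      · rintro ⟨s, hs⟩
        have h5 : s • ((gauge L e)⁻¹ • e) = (s * (gauge L e)⁻¹) • e := smul_smul _ _ _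
        rw [h5] at hs
        exact ⟨s * (gauge L e)⁻¹, hs⟩
      · rintro ⟨s, hs⟩
        refine ⟨s * gauge L e, ?_⟩
        have h5 : (s * gauge L e) • ((gauge L e)⁻¹ • e) = s • e := by
          have h6 : (s * gauge L e) • ((gauge L e)⁻¹ • e) =
              (s * gauge L e * (gauge L e)⁻¹) • e := smul_smul _ _ _
          rw [h6, mul_assoc, mul_inv_cancel₀ hγ.ne', mul_one]
        rw [h5]
        exact hs
    rw [h3] at h2
    exact h2

end Pool.Agent.HRL
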