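import Mathlib
import Pool.Agent.HRL.ME
import Pool.Agent.HRP.Targets
import Pool.Agent.Rog.PACK
import Pool.Agent.Rog.MAXN

/-!
# Assembly for general convex bodies
-/

set_option autoImplicit false

open MeasureTheory Set
open scoped Pointwise

namespace Pool.Agent.HRL

open Pool.Agent.Rog (E SymBody T_PACK T_MAXN p_PACK p_MAXN)

namespace TOPL_

lemma vol_smul_real {n : ℕ} (K : Set (E n)) {r : ℝ} (hr : 0 ≤ r) :
    volume.real (r • K) = r ^ n * volume.real K := by
  rw [measureReal_def, Measure.addHaar_smul, ENNReal.toReal_mul, measureReal_def,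
    finrank_euclideanSpace_fin, abs_of_nonneg (by positivity),
    ENNReal.toReal_ofReal (by positivity)]

lemma core (hEN : T_EN) (hTR : T_TR) (hPR : T_PR) (hSE : T_SE) (hFL : T_FL) (hLN : T_LN)
    (hAV : T_AV) (d N : ℕ) (Θ D q a t g : ℝ) (K L : Set (E d)) (hN : 1 ≤ N) (hΘ : 1 ≤ Θ)
    (hD : 1 ≤ D) (hL : SymBody L) (hK : Convex ℝ K) (hc : IsCompact K) (hLK : L ⊆ K)
    (hKD : K ⊆ D • L)
    (hA : volume.real (J N L K (1 / 10)) ≤
      1 / (80 * D * (320 * N * D * Θ) ^ N) * volume.real K ^ N)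
    (ha : a = q / (1 + q)) (hq : 1 / 2 ≤ q) (hq1 : q < 1) (ha0 : 0 < a)
    (hqd : 1 ≤ 4 * q ^ d) (ht0 : 0 ≤ t) (ht1 : t ≤ 1) (hg : 0 < g) (hainv : 1 / a ≤ 21 / 10)
    (hnum1 : q * (1 - t) / a ^ N ≤ N / 10)
    (hnum2 : (Θ * (20 * N)) ^ (2 ^ N - 1) * ((4 * D / g + 2) * (t * q + g) ^ d) ≤ q ^ d / 20)
    (U : Finset (E d)) (hU : U.Nonempty) (hUK : ∀ x ∈ U, x ∈ K)
    (hcount : ∀ z : E d, (({x | x ∈ U ∧ x - z ∈ q • K} : Set (E d)).ncard : ℝ) ≤
      Θ * a ^ d * U.card) : False := by
  classical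
  have hq0 : 0 < q := by linarith
  have h0L : (0 : E d) ∈ L := interior_subset (zero_int hL)
  have h0K : (0 : E d) ∈ K := hLK h0L
  set M : Set (E d) := q • K with hM
  have hMc : IsCompact M := hc.smul q
  have hMK : M ⊆ K := by
    rintro _ ⟨x, hx, rfl⟩
    have := hK hx h0K hq0.le (by linarith : (0 : ℝ) ≤ 1 - q) (by ring)
    simpa using this
  have hKint : (interior K).Nonempty := ⟨0, interior_mono hLK (zero_int hL)⟩
  have hKpos : 0 < volume.real K := by
    rw [measureReal_def]
    refine ENNReal.toReal_pos ?_ hc.measure_lt_top.ne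
    intro h
    exact (isOpen_interior.measure_pos volume hKint).ne' (measure_mono_null interior_subset h)
  have hMvol : volume.real M = q ^ d * volume.real K := vol_smul_real K hq0.le
  have hMpos : 0 < volume.real M := by rw [hMvol]; positivity
  have : Nonempty U := hU.to_subtype
  have hcard : (Fintype.card U : ℝ) = (U.card : ℝ) := by rw [Fintype.card_coe]
  have hZ0 : 0 < (Fintype.card U : ℝ) := by
    rw [hcard]
    exact_mod_cast hU.card_pos
  set Z : ℝ := (Fintype.card U : ℝ) with hZ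
  set v : U → E d := fun i => (i : E d) with hv
  have hvK : ∀ i, v i ∈ K := fun i => hUK _ i.2
  have hN0 : (1 : ℝ) ≤ N := by exact_mod_cast hN
  -- inclusion
  have hincl : ∀ i, H M a (v i) ⊆ M := by
    rintro i _ ⟨_, ⟨x, hx, rfl⟩, rfl⟩
    have h1 : v i + q • x ∈ (1 + q) • K := by
      rw [hK.add_smul zero_le_one hq0.le]
      exact add_mem_add (by simpa using hvK i) (smul_mem_smul_set hx)
    obtain ⟨y, hy, hye⟩ := h1
    refine ⟨y, hy, ?_⟩
    simp only at hye ⊢
    rw [← hye, smul_smul, ha]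
    congr 1
    field_simp
  -- energy
  have hEN' := hEN d M U v a (Θ * a ^ d) hMc ha0 (by positivity) (by
    intro z
    have h1 : (({i | v i - z ∈ M} : Set U).ncard) =
        (((fun i : U => (i : E d)) '' {i | v i - z ∈ M})).ncard :=
      (Set.ncard_image_of_injective _ Subtype.val_injective).symm
    rw [h1, Fintype.card_coe]
    refine le_trans (Nat.cast_le.mpr (Set.ncard_le_ncard ?_ ?_)) (hcount z)
    · rintro _ ⟨i, hi, rfl⟩
      exact ⟨i.2, hi⟩
    · exact U.finite_toSet.subset (fun x hx => hx.1))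
  have hEn : ∑ i, ∑ j, volume.real (H M a (v i) ∩ H M a (v j)) ≤
      Θ * (a ^ d) ^ 2 * (Fintype.card U : ℝ) ^ 2 * volume.real M := by
    refine hEN'.trans (le_of_eq ?_)
    ring
  -- the set `S`
  set e : E d := (1 / (Fintype.card U : ℝ)) • ∑ i, v i with he
  set S : Set (E d) := {u | u ∈ q • K ∧ ∃ s : ℝ, u + s • e ∈ t • (q • K)} with hS
  obtain ⟨hSm, hSv⟩ := hSE d K L D q t g e hL hK hc hLK hKD hD hq0 hq1.le ht0 ht1 hg
  have hSM : S ⊆ M := fun u hu => hu.1
  have hR0 : (0 : ℝ) < 20 * N := by positivity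
  have hTR' := hTR d N M S U v a Θ (20 * N) hMc hMpos ha0 (by linarith) hR0 hincl hEn hSm hSM
  have hTR2 : ∑ p : Fin N → U, volume.real
      {w | w ∈ M ∧ (∑ j : Fin N, a ^ ((j : ℕ) + 1) • v (p j)) + a ^ N • w ∈ S} ≤
      Z ^ N * (volume.real M / 10) := by
    refine hTR'.trans (mul_le_mul_of_nonneg_left ?_ (by positivity))
    have h1 : (Θ * (20 * N)) ^ (2 ^ N - 1) * volume.real S ≤ volume.real M / 20 := by
      calc (Θ * (20 * N)) ^ (2 ^ N - 1) * volume.real S
          ≤ (Θ * (20 * N)) ^ (2 ^ N - 1) * ((4 * D / g + 2) * (t * q + g) ^ d * volume.real K) :=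
            mul_le_mul_of_nonneg_left hSv (by positivity)
        _ = ((Θ * (20 * N)) ^ (2 ^ N - 1) * ((4 * D / g + 2) * (t * q + g) ^ d)) *
            volume.real K := by ring
        _ ≤ (q ^ d / 20) * volume.real K := mul_le_mul_of_nonneg_right hnum2 hKpos.le
        _ = _ := by rw [hMvol]; ring
    have h2 : (N : ℝ) / (20 * N) * volume.real M = volume.real M / 20 := by
      field_simp
    rw [h2]
    linarith
  -- good indices
  set bad : Finset (Fin N → U) := Finset.univ.filter fun p => ∀ w ∈ M,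
    (∑ j : Fin N, a ^ ((j : ℕ) + 1) • v (p j)) + a ^ N • w ∈ S with hbad
  have hbadc : (bad.card : ℝ) ≤ Z ^ N / 10 := by
    have h1 : (bad.card : ℝ) * volume.real M ≤ Z ^ N * (volume.real M / 10) := by
      refine le_trans ?_ hTR2
      rw [← nsmul_eq_mul, ← Finset.sum_const]
      refine le_trans (Finset.sum_le_sum fun p hp => ?_) (Finset.sum_le_sum_of_subset_of_nonneg
        (Finset.subset_univ bad) fun _ _ _ => measureReal_nonneg)
      refine le_of_eq ?_
      congr 1
      ext w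
      constructor
      · intro hw
        exact ⟨hw, (Finset.mem_filter.mp hp).2 w hw⟩
      · intro hw
        exact hw.1
    have h2 : (bad.card : ℝ) * volume.real M ≤ (Z ^ N / 10) * volume.real M := by linarith
    exact le_of_mul_le_mul_right h2 hMpos
  have hgood : ∀ p : Fin N → U, p ∉ bad →
      (9 / 10 : ℝ) * N ≤ gauge L (∑ j, v (p j) - (N : ℝ) • e) := by
    intro p hp
    simp only [hbad, Finset.mem_filter, Finset.mem_univ, true_and, not_forall] at hp
    obtain ⟨w, hw, hwS⟩ := hp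
    have hWM : (∑ j : Fin N, a ^ ((j : ℕ) + 1) • v (p j)) + a ^ N • w ∈ M := by
      have key : ∀ (n : ℕ) (p : Fin n → U), ∀ w ∈ M,
          (∑ j : Fin n, a ^ ((j : ℕ) + 1) • v (p j)) + a ^ n • w ∈ M := by
        intro n
        induction n with
        | zero =>
          intro p w hw
          simpa using hw
        | succ n ih =>
          intro p w hw
          have h1 := hincl (p 0) ⟨_, ih (fun j => p j.succ) w hw, rfl⟩
          convert h1 using 1
          rw [Fin.sum_univ_succ, smul_add, smul_add, Finset.smul_sum, smul_smul, ← pow_succ']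
          simp only [Fin.val_zero, zero_add, pow_one, Fin.val_succ]
          rw [add_assoc]
          congr 2
          refine Finset.sum_congr rfl fun j _ => ?_
          rw [smul_smul, ← pow_succ']
      exact key N p w hw
    have hno : ∀ s : ℝ, (∑ j : Fin N, a ^ ((j : ℕ) + 1) • v (p j)) + a ^ N • w + s • e ∉
        t • (q • K) := by
      intro s hs
      exact hwS ⟨hWM, s, hs⟩
    have := hFL d N K L a q t N e w (fun j => v (p j)) hL hK hc hLK hq0 ha ht0
      (fun j => hvK _) hw hno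
    linarith
  have hsumlow : (81 / 100 : ℝ) * N * Z ^ N ≤
      ∑ p : Fin N → U, gauge L (∑ j, v (p j) - (N : ℝ) • e) := by
    have h1 : ∑ p ∈ badᶜ, (9 / 10 : ℝ) * N ≤ ∑ p : Fin N → U,
        gauge L (∑ j, v (p j) - (N : ℝ) • e) := by
      refine le_trans (Finset.sum_le_sum fun p hp => hgood p (Finset.mem_compl.mp hp))
        (Finset.sum_le_sum_of_subset_of_nonneg (Finset.subset_univ _) fun _ _ _ => gauge_nonneg _)
    refine le_trans ?_ h1
    rw [Finset.sum_const, nsmul_eq_mul]
    have h2 : (badᶜ.card : ℝ) = Z ^ N - bad.card := by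
      rw [Finset.card_compl, Nat.cast_sub (Finset.card_le_univ _)]
      congr 1
      rw [Fintype.card_fun, Fintype.card_fin]
      push_cast
      rfl
    rw [h2]
    have h3 : (9 / 10 : ℝ) * Z ^ N ≤ Z ^ N - bad.card := by linarith
    have h4 := mul_le_mul_of_nonneg_right h3 (by positivity : (0 : ℝ) ≤ 9 / 10 * N)
    linarith
  -- upper bound
  have hLN' := hLN d N L U v hL
  set σ : ℝ := 4 ^ N * (1 / (80 * D * (320 * N * D * Θ) ^ N)) with hσ
  have hJfin : volume (J N L K (1 / 10)) ≠ ⊤ := by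
    have h1 : J N L K (1 / 10) ⊆ Set.univ.pi fun _ => K := by
      intro w hw i _
      exact hw.1 i
    exact ne_top_of_le_ne_top (isCompact_univ_pi fun _ => hc).measure_lt_top.ne
      (measure_mono h1)
  have hD0 : 0 < D := by linarith
  have hΘ0 : 0 < Θ := by linarith
  have hPpos : 0 < (320 * N * D * Θ) ^ N := by positivity
  have hJ1 : volume.real (J N L M (1 / 10)) ≤ σ * volume.real M ^ N := by
    have h1 : J N L M (1 / 10) ⊆ J N L K (1 / 10) := fun w hw => ⟨fun i => hMK (hw.1 i), hw.2⟩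
    refine (measureReal_mono h1 hJfin).trans (hA.trans ?_)
    rw [hσ, hMvol]
    have h2 : volume.real K ^ N ≤ 4 ^ N * (q ^ d * volume.real K) ^ N := by
      rw [← mul_pow]
      refine pow_le_pow_left₀ hKpos.le ?_ N
      calc volume.real K ≤ (4 * q ^ d) * volume.real K := le_mul_of_one_le_left hKpos.le hqd
        _ = _ := by ring
    calc 1 / (80 * D * (320 * N * D * Θ) ^ N) * volume.real K ^ N
        ≤ 1 / (80 * D * (320 * N * D * Θ) ^ N) * (4 ^ N * (q ^ d * volume.real K) ^ N) :=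
          mul_le_mul_of_nonneg_left h2 (by positivity)
      _ = _ := by ring
  have hJM : MeasurableSet (J N L M (1 / 10)) := meas_J hL hMc
  have hl0 : (0 : ℝ) < 80 * N * D * Θ := by positivity
  have hPR' := hPR d N M (J N L M (1 / 10)) U v a Θ (80 * N * D * Θ) hMc hMpos ha0 hΘ0 hl0 hincl
    hEn hJM (fun u hu j => hu.1 j)
  have hMN : 0 < volume.real M ^ N := by positivity
  have hPR2 : ∑ p : Fin N → U, volume.real {w : Fin N → E d | (∀ j, w j ∈ M) ∧
      (fun j => a • (v (p j) + w j)) ∈ J N L M (1 / 10)} ≤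
      (Fintype.card U : ℝ) ^ N * (1 / (40 * D) * volume.real M ^ N) := by
    refine hPR'.trans (mul_le_mul_of_nonneg_left ?_ (by positivity))
    have h1 : (80 * N * D * Θ) ^ N * volume.real (J N L M (1 / 10)) ≤
        1 / (80 * D) * volume.real M ^ N := by
      calc (80 * N * D * Θ) ^ N * volume.real (J N L M (1 / 10))
          ≤ (80 * N * D * Θ) ^ N * (σ * volume.real M ^ N) :=
            mul_le_mul_of_nonneg_left hJ1 (by positivity)
        _ = 1 / (80 * D) * volume.real M ^ N := by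
            rw [hσ, show (320 * N * D * Θ : ℝ) = 4 * (80 * N * D * Θ) by ring,
              mul_pow 4 (80 * N * D * Θ) N]
            field_simp
    have h2 : (N : ℝ) * Θ / (80 * N * D * Θ) * volume.real M ^ N =
        1 / (80 * D) * volume.real M ^ N := by
      field_simp
    rw [h2]
    have h3 : 1 / (40 * D) * volume.real M ^ N =
        1 / (80 * D) * volume.real M ^ N + 1 / (80 * D) * volume.real M ^ N := by
      field_simp
      norm_num
    rw [h3]
    linarith
  have hAV' := hAV d N K L U v a q D (1 / 10) σ (1 / (40 * D)) hL hK hc hLK hKD hD hq0 hq1.le ha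
    (by norm_num) hvK hJ1 hPR2
  have hDσ : D * σ ≤ 1 / 80 := by
    rw [hσ]
    have h1 : (4 : ℝ) ^ N ≤ (320 * N * D * Θ) ^ N := by
      refine pow_le_pow_left₀ (by norm_num) ?_ N
      have h2 : (1 : ℝ) ≤ N * D := one_le_mul_of_one_le_of_one_le hN0 hD
      have h3 : (1 : ℝ) ≤ N * D * Θ := one_le_mul_of_one_le_of_one_le h2 hΘ
      nlinarith
    have h4 : D * (4 ^ N * (1 / (80 * D * (320 * N * D * Θ) ^ N))) =
        (1 / 80) * (4 ^ N / (320 * N * D * Θ) ^ N) := by
      field_simp
    rw [h4]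
    have h5 : (4 : ℝ) ^ N / (320 * N * D * Θ) ^ N ≤ 1 := by
      rw [div_le_one hPpos]
      exact h1
    linarith
  have hDτ : D * (1 / (40 * D)) = 1 / 40 := by
    field_simp
  have hbr : (1 / 10 + D * (1 / (40 * D))) / a + (1 / 10 + D * σ) ≤ 3 / 8 := by
    rw [hDτ]
    have h1 : (1 / 10 + 1 / 40 : ℝ) / a = (1 / 8) * (1 / a) := by
      rw [div_eq_mul_one_div]
      norm_num
    rw [h1]
    linarith
  have hup : ∑ p : Fin N → U, gauge L (∑ j, v (p j) - (N : ℝ) • e) ≤ (3 / 4 : ℝ) * N * Z ^ N := by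
    refine hLN'.trans ?_
    have h1 : ∑ p : Fin N → U, avg L (fun j => v (p j)) ≤ Z ^ N * (N * (3 / 8)) := by
      refine hAV'.trans (mul_le_mul_of_nonneg_left ?_ (by positivity))
      exact mul_le_mul_of_nonneg_left hbr (by positivity)
    linarith
  have hZN : 0 < (N : ℝ) * Z ^ N := by positivity
  nlinarith [hsumlow.trans hup]

end TOPL_

open TOPL_ in
theorem p_TOPL (hEN : T_EN) (hTR : T_TR) (hPR : T_PR) (hSE : T_SE) (hFL : T_FL) (hLN : T_LN)
    (hAV : T_AV) (hNU : T_NU) (hGRD : Pool.Agent.HRP.T_GRD) : T_TOPL := by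
  classical
  intro d N Θ D K L hd hN hΘ hD hcond hL hK hc hLK hKD hA
  obtain ⟨hq, hq1, ha0, ha1, had, hqd, ht0, ht1, hg, hainv, hnum1, hnum2⟩ :=
    hNU d N Θ D _ _ _ _ hd hN hΘ hD hcond rfl rfl rfl rfl
  set q : ℝ := 1 - 1 / d with hqdef
  set a : ℝ := q / (1 + q) with hadef
  have hd0 : (0 : ℝ) < d := by
    have : (2 : ℝ) ≤ d := by exact_mod_cast hd
    linarith
  have hD0 : 0 < D := by linarith
  have hr : (0 : ℝ) < 1 / (2 * d * D) := by positivity
  have hr2 : (0 : ℝ) < 1 / (2 * d) := by positivity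
  have hDL : SymBody (D • L) := by
    refine ⟨hL.cpt.smul D, hL.cvx.smul D, ?_, ?_⟩
    · refine ⟨0, interior_mono ?_ (zero_int hL)⟩
      intro x hx
      refine ⟨D⁻¹ • x, ?_, ?_⟩
      · have := hL.cvx hx (interior_subset (zero_int hL)) (by positivity : (0 : ℝ) ≤ D⁻¹)
          (sub_nonneg.mpr (inv_le_one_of_one_le₀ hD)) (by ring)
        simpa using this
      · simp only
        rw [smul_smul, mul_inv_cancel₀ hD0.ne', one_smul]
    · rintro _ ⟨x, hx, rfl⟩
      exact ⟨-x, hL.symm x hx, by simp⟩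
  obtain ⟨X, hX1, hX2, hX3⟩ := p_MAXN p_PACK d (D • L) K (1 / (2 * d * D)) hDL hKD hr
  have hsc : (1 / (2 * d * D)) • (D • L) = (1 / (2 * d) : ℝ) • L := by
    rw [smul_smul]
    congr 1
    field_simp
  rw [hsc] at hX2 hX3
  have hXc : (X.card : ℝ) ≤ (4 * d * D + 1) ^ d := by
    have := p_PACK d L X 0 D (1 / (2 * d)) hL hr2 hD0.le (fun x hx => by
      rw [sub_zero]; exact hKD (hX1 x hx)) hX2
    refine this.trans (le_of_eq ?_)
    congr 1
    field_simp
    ring
  have h0L : (0 : E d) ∈ L := interior_subset (zero_int hL)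
  have hXne : X.Nonempty := by
    obtain ⟨x, hx, _⟩ := hX3 0 (hLK h0L)
    exact ⟨x, hx⟩
  set κ : ℝ := Θ * a ^ d with hκ
  have hκ0 : 0 < κ := by positivity
  obtain ⟨T, hT, hTc⟩ := hGRD d (q • K) X κ hκ0 hXne (by
    intro U hUX hU
    by_contra hcon
    push Not at hcon
    exact core hEN hTR hPR hSE hFL hLN hAV d N Θ D q a _ _ K L hN hΘ hD hL hK hc hLK hKD hA rfl hq
      hq1 ha0 hqd ht0 ht1 hg hainv hnum1 hnum2 U hU (fun x hx => hX1 x (hUX hx))
      (fun z => (hcon z).le))
  refine ⟨T, ?_, ?_⟩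
  · have hlogX : Real.log X.card ≤ d * Real.log (4 * d * D + 1) := by
      rw [← Real.log_pow]
      exact Real.log_le_log (by exact_mod_cast hXne.card_pos) hXc
    have hlog0 : 0 ≤ Real.log X.card := Real.log_natCast_nonneg _
    have h1 : 1 / κ ≤ Real.exp 1 * 2 ^ d / Θ := by
      rw [hκ, div_le_div_iff₀ hκ0 (by linarith)]
      have : 1 * Θ ≤ (a ^ d * (Real.exp 1 * 2 ^ d)) * Θ :=
        mul_le_mul_of_nonneg_right had (by linarith)
      linarith
    calc (T.card : ℝ) ≤ 1 + Real.log X.card / κ := hT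
      _ = 1 + (1 / κ) * Real.log X.card := by ring
      _ ≤ 1 + Real.exp 1 * 2 ^ d / Θ * (d * Real.log (4 * d * D + 1)) := by
          have := mul_le_mul h1 hlogX hlog0 (by positivity)
          linarith
  · intro z hz
    obtain ⟨x, hx, hzx⟩ := hX3 z hz
    obtain ⟨y, hy, hxy⟩ := hTc x hx
    simp only [mem_iUnion, exists_prop]
    refine ⟨y, hy, z - y, ?_, by simp⟩
    have h0i : (0 : E d) ∈ interior K := interior_mono hLK (zero_int hL)
    have h1 : z - y ∈ (1 / (2 * d) + q) • K := by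
      rw [hK.add_smul hr2.le (by linarith)]
      have := add_mem_add (smul_set_mono hLK hzx) hxy
      simpa using this
    obtain ⟨w, hw, hwe⟩ := h1
    simp only at hwe
    rw [← hwe]
    have hlt : 1 / (2 * d) + q < 1 := by
      rw [hqdef]
      have : (1 : ℝ) / (2 * d) < 1 / d := by
        rw [div_lt_div_iff₀ (by positivity) hd0]
        linarith
      linarith
    have := hK.combo_interior_self_mem_interior h0i hw (sub_pos.mpr hlt)
      (by positivity : (0 : ℝ) ≤ 1 / (2 * d) + q) (by ring)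
    simpa using this

end Pool.Agent.HRL
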