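import Mathlib
import Pool.Agent.HRL.Targets

/-!
# TR: the chain (helper76, for helper30)
-/

set_option autoImplicit false

open MeasureTheory Set
open scoped Pointwise

namespace Pool.Agent.HRL

open Pool.Agent.Rog (E SymBody)

namespace TR_

lemma H_compact {n : ℕ} {M : Set (E n)} (hM : IsCompact M) (a : ℝ) (v : E n) :
    IsCompact (H M a v) := by
  have h : H M a v = (fun w => a • (v + w)) '' M := by
    ext u
    constructor
    · rintro ⟨w, hw, rfl⟩
      exact ⟨w, hw, rfl⟩
    · rintro ⟨w, hw, rfl⟩
      exact ⟨w, hw, rfl⟩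
  rw [h]
  exact hM.image (by fun_prop)

/-- the chain stays in `M` -/
lemma chain_cons {n N : ℕ} {ι : Type} (v : ι → E n) (a : ℝ) (i : ι) (p : Fin N → ι) (w : E n) :
    (∑ j : Fin (N + 1), a ^ ((j : ℕ) + 1) • v ((Fin.cons i p : Fin (N + 1) → ι) j)) +
        a ^ (N + 1) • w =
      a • (v i + ((∑ j : Fin N, a ^ ((j : ℕ) + 1) • v (p j)) + a ^ N • w)) := by
  rw [Fin.sum_univ_succ]
  simp only [Fin.cons_zero, Fin.cons_succ, Fin.val_zero, Fin.val_succ, zero_add, pow_one]
  rw [smul_add, smul_add, Finset.smul_sum, smul_smul, ← pow_succ', add_assoc]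
  congr 2
  refine Finset.sum_congr rfl (fun j _ => ?_)
  rw [smul_smul, ← pow_succ']

lemma chain_mem {n : ℕ} {M : Set (E n)} {ι : Type} (v : ι → E n) (a : ℝ)
    (hH : ∀ i, H M a (v i) ⊆ M) : ∀ (N : ℕ) (p : Fin N → ι) (w : E n), w ∈ M →
    (∑ j : Fin N, a ^ ((j : ℕ) + 1) • v (p j)) + a ^ N • w ∈ M := by
  intro N
  induction N with
  | zero =>
    intro p w hw
    simpa using hw
  | succ N ih =>
    intro p w hw
    have h := chain_cons v a (p 0) (Fin.tail p) w
    rw [Fin.cons_self_tail] at h
    rw [h]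
    exact hH (p 0) ⟨_, ih (Fin.tail p) w hw, rfl⟩

/-- the preimage of `S` under the step -/
def pre {n : ℕ} (M S : Set (E n)) (a : ℝ) (v : E n) : Set (E n) := {x | x ∈ M ∧ a • (v + x) ∈ S}

lemma pre_meas {n : ℕ} {M S : Set (E n)} (hM : IsCompact M) (hS : MeasurableSet S) (a : ℝ)
    (v : E n) : MeasurableSet (pre M S a v) := by
  have h : Measurable (fun x : E n => a • (v + x)) := by fun_prop
  exact hM.measurableSet.inter (h hS)

lemma pre_vol {n : ℕ} {M S : Set (E n)} {a : ℝ} (ha : 0 < a) (v : E n) :
    volume.real (S ∩ H M a v) = a ^ n * volume.real (pre M S a v) := by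
  have h : S ∩ H M a v = (fun x => a • v + x) '' (a • pre M S a v) := by
    ext u
    constructor
    · rintro ⟨hu, w, hw, rfl⟩
      exact ⟨a • w, ⟨w, ⟨hw, hu⟩, rfl⟩, by rw [smul_add]⟩
    · rintro ⟨y, ⟨w, ⟨hw, hu⟩, rfl⟩, rfl⟩
      have e : (fun x => a • v + x) ((fun x => a • x) w) = a • (v + w) := by
        simp only
        rw [smul_add]
      rw [e]
      exact ⟨hu, w, hw, rfl⟩
  rw [h]
  unfold Measure.real
  rw [image_add_left, measure_preimage_add, Measure.addHaar_smul, ENNReal.toReal_mul,
    ENNReal.toReal_ofReal (abs_nonneg _), finrank_euclideanSpace_fin, abs_of_pos (by positivity)]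

/-- splitting at a level of the multiplicity function -/
lemma split {n : ℕ} {M S : Set (E n)} {ι : Type} [Fintype ι] (A : ι → Set (E n))
    (hA : ∀ i, MeasurableSet (A i)) (hAM : ∀ i, A i ⊆ M) (hM : IsCompact M)
    (hS : MeasurableSet S) (hSM : S ⊆ M) {lam : ℝ} (hl : 0 < lam) :
    ∑ i, volume.real (S ∩ A i) ≤
      lam * volume.real S + (1 / lam) * ∑ i, ∑ j, volume.real (A i ∩ A j) := by
  have hMf : volume M ≠ ⊤ := hM.measure_lt_top.ne
  have hint : ∀ T : Set (E n), MeasurableSet T → T ⊆ M →
      Integrable (T.indicator (1 : E n → ℝ)) := by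
    intro T hT hTM
    rw [integrable_indicator_iff hT]
    exact integrableOn_const (hs := ne_top_of_le_ne_top hMf (measure_mono hTM))
  have e1 : ∑ i, volume.real (S ∩ A i) = ∫ u, ∑ i, (S ∩ A i).indicator (1 : E n → ℝ) u := by
    rw [integral_finsetSum _ (fun i _ => hint _ (hS.inter (hA i)) (inter_subset_left.trans hSM))]
    exact Finset.sum_congr rfl (fun i _ => (integral_indicator_one (hS.inter (hA i))).symm)
  have e2 : ∑ i, ∑ j, volume.real (A i ∩ A j) =
      ∫ u, ∑ i, ∑ j, (A i ∩ A j).indicator (1 : E n → ℝ) u := by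
    rw [integral_finsetSum _ (fun i _ => integrable_finsetSum _ (fun j _ =>
      hint _ ((hA i).inter (hA j)) (inter_subset_left.trans (hAM i))))]
    refine Finset.sum_congr rfl (fun i _ => ?_)
    rw [integral_finsetSum _ (fun j _ =>
      hint _ ((hA i).inter (hA j)) (inter_subset_left.trans (hAM i)))]
    exact Finset.sum_congr rfl (fun j _ => (integral_indicator_one ((hA i).inter (hA j))).symm)
  have e3 : volume.real S = ∫ u, S.indicator (1 : E n → ℝ) u := (integral_indicator_one hS).symm
  rw [e1, e2, e3, ← integral_const_mul, ← integral_const_mul, ← integral_add]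
  · refine integral_mono ?_ ?_ (fun u => ?_)
    · exact integrable_finsetSum _ (fun i _ =>
        hint _ (hS.inter (hA i)) (inter_subset_left.trans hSM))
    · refine Integrable.add ((hint S hS hSM).const_mul _) (Integrable.const_mul ?_ _)
      exact integrable_finsetSum _ (fun i _ => integrable_finsetSum _ (fun j _ =>
        hint _ ((hA i).inter (hA j)) (inter_subset_left.trans (hAM i))))
    · set f : ℝ := ∑ i, (A i).indicator (1 : E n → ℝ) u with hf
      have hf0 : 0 ≤ f := Finset.sum_nonneg (fun i _ => indicator_nonneg (fun _ _ => zero_le_one) u)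
      have h1 : ∑ i, (S ∩ A i).indicator (1 : E n → ℝ) u = S.indicator (1 : E n → ℝ) u * f := by
        rw [hf, Finset.mul_sum]
        refine Finset.sum_congr rfl (fun i _ => ?_)
        rw [inter_indicator_one]
        rfl
      have h2 : ∑ i, ∑ j, (A i ∩ A j).indicator (1 : E n → ℝ) u = f * f := by
        rw [hf, Finset.sum_mul_sum]
        refine Finset.sum_congr rfl (fun i _ => Finset.sum_congr rfl (fun j _ => ?_))
        rw [inter_indicator_one]
        rfl
      simp only
      rw [h1, h2]
      by_cases hu : u ∈ S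
      · rw [indicator_of_mem hu, Pi.one_apply, one_mul, mul_one]
        rcases le_total f lam with h | h
        · have : 0 ≤ 1 / lam * (f * f) := by positivity
          linarith
        · have : f ≤ 1 / lam * (f * f) := by
            rw [one_div, inv_mul_eq_div, le_div_iff₀ hl]
            nlinarith
          linarith
      · rw [indicator_of_notMem hu, zero_mul, mul_zero, zero_add]
        positivity
  · exact (hint S hS hSM).const_mul _
  · refine Integrable.const_mul ?_ _
    exact integrable_finsetSum _ (fun i _ => integrable_finsetSum _ (fun j _ =>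
        hint _ ((hA i).inter (hA j)) (inter_subset_left.trans (hAM i))))

end TR_

open TR_ in
theorem p_TR : T_TR := by
  intro n N M S ι _ _ v a ϑ R hM hMv ha hϑ hR hH hE hS hSM
  induction N generalizing S with
  | zero =>
    have h1 : {w : E n | w ∈ M ∧ (∑ j : Fin 0, a ^ ((j : ℕ) + 1) • v ((default : Fin 0 → ι) j)) +
        a ^ 0 • w ∈ S} = S := by
      ext w
      simp only [Finset.univ_eq_empty, Finset.sum_empty, pow_zero, one_smul, zero_add, mem_ofPred_eq]
      exact ⟨fun h => h.2, fun h => ⟨hSM h, h⟩⟩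
    rw [Fintype.sum_unique, h1]
    simp
  | succ N ih =>
    set c : ℝ := (ϑ * R) ^ (2 ^ N - 1) with hc
    have hc0 : 0 < c := by positivity
    set n0 : ℝ := (Fintype.card ι : ℝ) with hn0
    have hn0p : 0 < n0 := by
      rw [hn0]
      exact_mod_cast Fintype.card_pos
    -- reindex
    have e1 : ∑ p : Fin (N + 1) → ι, volume.real
        {w | w ∈ M ∧ (∑ j : Fin (N + 1), a ^ ((j : ℕ) + 1) • v (p j)) + a ^ (N + 1) • w ∈ S} =
        ∑ i, ∑ p : Fin N → ι, volume.real
          {w | w ∈ M ∧ (∑ j : Fin N, a ^ ((j : ℕ) + 1) • v (p j)) + a ^ N • w ∈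
            pre M S a (v i)} := by
      rw [← Fintype.sum_prod_type']
      refine (Fintype.sum_equiv (Fin.consEquiv (fun _ : Fin (N + 1) => ι)) _ _ ?_).symm
      rintro ⟨i, p⟩
      congr 1
      ext w
      simp only [mem_ofPred_eq, Fin.consEquiv_apply]
      rw [chain_cons]
      constructor
      · rintro ⟨hw, h⟩
        exact ⟨hw, h.2⟩
      · rintro ⟨hw, h⟩
        exact ⟨hw, chain_mem v a hH N p w hw, h⟩
    rw [e1]
    have h2 : ∀ i, ∑ p : Fin N → ι, volume.real
          {w | w ∈ M ∧ (∑ j : Fin N, a ^ ((j : ℕ) + 1) • v (p j)) + a ^ N • w ∈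
            pre M S a (v i)} ≤
          n0 ^ N * (c * volume.real (pre M S a (v i)) + N / R * volume.real M) :=
      fun i => ih (pre M S a (v i)) (pre_meas hM hS a (v i)) (fun x hx => hx.1)
    set lam : ℝ := c * (ϑ * R) * n0 * a ^ n with hlam
    have hlam0 : 0 < lam := by positivity
    have h3 := split (fun i => H M a (v i)) (fun i => (H_compact hM a (v i)).measurableSet) hH hM
      hS hSM hlam0
    have h4 : a ^ n * ∑ i, volume.real (pre M S a (v i)) ≤
        lam * volume.real S + 1 / lam * (ϑ * (a ^ n) ^ 2 * n0 ^ 2 * volume.real M) := by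
      rw [Finset.mul_sum]
      calc ∑ i, a ^ n * volume.real (pre M S a (v i)) = ∑ i, volume.real (S ∩ H M a (v i)) :=
            Finset.sum_congr rfl (fun i _ => (pre_vol ha (v i)).symm)
        _ ≤ _ := h3
        _ ≤ _ := by gcongr
    have h5 : ∑ i, volume.real (pre M S a (v i)) ≤
        n0 * (c * (ϑ * R) * volume.real S + 1 / (c * R) * volume.real M) := by
      have hapos : 0 < a ^ n := by positivity
      have e5 : lam * volume.real S + 1 / lam * (ϑ * (a ^ n) ^ 2 * n0 ^ 2 * volume.real M) =
          a ^ n * (n0 * (c * (ϑ * R) * volume.real S + 1 / (c * R) * volume.real M)) := by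
        rw [hlam]
        field_simp
      rw [e5] at h4
      exact le_of_mul_le_mul_left h4 hapos
    have hpow : (ϑ * R) ^ (2 ^ (N + 1) - 1) = c * c * (ϑ * R) := by
      rw [hc, ← pow_add, ← pow_succ]
      congr 1
      have : 1 ≤ 2 ^ N := Nat.one_le_two_pow
      rw [pow_succ]
      omega
    calc ∑ i, ∑ p : Fin N → ι, volume.real
          {w | w ∈ M ∧ (∑ j : Fin N, a ^ ((j : ℕ) + 1) • v (p j)) + a ^ N • w ∈
            pre M S a (v i)}
        ≤ ∑ i, n0 ^ N * (c * volume.real (pre M S a (v i)) + N / R * volume.real M) :=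
          Finset.sum_le_sum (fun i _ => h2 i)
      _ = n0 ^ N * (c * (∑ i, volume.real (pre M S a (v i))) + n0 * (N / R * volume.real M)) := by
          rw [← Finset.mul_sum, Finset.sum_add_distrib, ← Finset.mul_sum, Finset.sum_const,
            Finset.card_univ, nsmul_eq_mul]
      _ ≤ n0 ^ N * (c * (n0 * (c * (ϑ * R) * volume.real S + 1 / (c * R) * volume.real M)) +
            n0 * (N / R * volume.real M)) := by
          gcongr
      _ = n0 ^ (N + 1) * ((ϑ * R) ^ (2 ^ (N + 1) - 1) * volume.real S +
            ((N + 1 : ℕ) : ℝ) / R * volume.real M) := by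
          rw [hpow]
          push_cast
          field_simp
          ring

end Pool.Agent.HRL
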